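import Pool.Agent.Y494.PK.Stm

/-!
Project PK: counting covers (job 3482).
-/

namespace Pool.Agent.Y348.PK.Circ

open Pool.Agent.Y494.PK Classical

variable {Q : Type} {n : ℕ}

/-- rotation -/
def rot (s : Fin (n + 1)) (e : Fin (n + 1) ≃ Q) : Fin (n + 1) ≃ Q := (Equiv.addRight s).trans e

theorem rot_apply (s : Fin (n + 1)) (e : Fin (n + 1) ≃ Q) (j : Fin (n + 1)) :
    rot s e j = e (j + s) := rfl

theorem rot_inj (s : Fin (n + 1)) : Function.Injective (rot (Q := Q) s) := by
  intro e e' h
  ext j
  have := congrArg (fun f : Fin (n + 1) ≃ Q => f (j - s)) h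
  simpa [rot_apply] using this

/-- reflection -/
def refl (e : Fin (n + 1) ≃ Q) : Fin (n + 1) ≃ Q := (Equiv.neg _).trans e

theorem refl_apply (e : Fin (n + 1) ≃ Q) (j : Fin (n + 1)) : refl e j = e (-j) := rfl

theorem refl_inj : Function.Injective (refl (Q := Q) (n := n)) := by
  intro e e' h
  ext j
  have := congrArg (fun f : Fin (n + 1) ≃ Q => f (-j)) h
  simpa [refl_apply] using this

/-- cyclic gaps -/
def Gp (R : SimpleGraph Q) (e : Fin (n + 1) ≃ Q) : Set (Fin (n + 1)) :=
  {p | ¬ R.Adj (e p) (e (p + 1))}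

theorem gp_rot (R : SimpleGraph Q) (e : Fin (n + 1) ≃ Q) (s p : Fin (n + 1)) :
    p ∈ Gp R (rot s e) ↔ p + s ∈ Gp R e := by
  simp only [Gp, Set.mem_ofPred_eq, rot_apply]
  rw [show p + 1 + s = p + s + 1 by abel]

theorem val_succ {p : Fin (n + 1)} (hp : p ≠ Fin.last n) : ((p + 1 : Fin (n + 1)) : ℕ) = p + 1 :=
  Fin.val_add_one_of_lt (lt_of_le_of_ne (Fin.le_last p) hp)

theorem cov_adj {R : SimpleGraph Q} {e : Fin (n + 1) ≃ Q} {i : ℕ} (h : Cov R i e)
    {p : Fin (n + 1)} (hp : p ≠ Fin.last n) (hi : (p : ℕ) ≠ i) : R.Adj (e p) (e (p + 1)) :=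
  h.2 p (p + 1) (val_succ hp) hi

theorem ham_of {R : SimpleGraph Q} {e : Fin (n + 1) ≃ Q}
    (h : ∀ p : Fin (n + 1), p ≠ Fin.last n → R.Adj (e p) (e (p + 1))) : Ham R e := by
  intro j k hjk
  have hj : j ≠ Fin.last n := by
    rintro rfl
    have := k.2
    simp at hjk
    omega
  have : k = j + 1 := by
    apply Fin.ext
    rw [hjk, val_succ hj]
  rw [this]
  exact h j hj

theorem last_add_one : (Fin.last n : Fin (n + 1)) + 1 = 0 := by
  simp

theorem gp_cov {R : SimpleGraph Q} (hN : NT (n + 1) R) {e : Fin (n + 1) ≃ Q} {i : Fin (n + 1)}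
    (h : Cov R (i : ℕ) e) : i ≠ Fin.last n ∧ Gp R e = {i, Fin.last n} := by
  have hil : i ≠ Fin.last n := by
    rintro rfl
    have := h.1
    simp at this
  refine ⟨hil, ?_⟩
  apply Set.Subset.antisymm
  · intro p hp
    by_contra hcon
    simp only [Set.mem_insert_iff, Set.mem_singleton_iff, not_or] at hcon
    exact hp (cov_adj h hcon.2 (fun hh => hcon.1 (Fin.ext hh)))
  · rintro p (rfl | rfl)
    · intro hp
      apply hN e
      apply ham_of
      intro q hq
      by_cases hqp : q = p
      · rw [hqp]; exact hp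
      · exact cov_adj h hq (fun hh => hqp (Fin.ext hh))
    · intro hp
      apply hN (rot (i + 1) e)
      apply ham_of
      intro q hq
      rw [rot_apply, rot_apply, show q + 1 + (i + 1) = (q + (i + 1)) + 1 by abel]
      by_cases hql : q + (i + 1) = Fin.last n
      · rw [hql]; exact hp
      · apply cov_adj h hql
        intro hh
        have h1 : q + (i + 1) = i := Fin.ext hh
        have h2 : q + 1 = 0 := by
          have h3 : q + 1 + i = i := by
            rw [show q + 1 + i = q + (i + 1) by abel]; exact h1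
          exact add_eq_right.1 h3
        apply hq
        have : q + 1 = Fin.last n + 1 := by rw [h2, last_add_one]
        exact add_right_cancel this

theorem card_eq [Fintype Q] (hc : Fintype.card Q = n + 1) :
    Fintype.card (Fin (n + 1) ≃ Q) = (n + 1).factorial := by
  rw [Fintype.card_equiv (Fintype.equivFinOfCardEq hc).symm, Fintype.card_fin]

theorem shifts_le [Fintype Q] {R : SimpleGraph Q} (hN : NT (n + 1) R) (e : Fin (n + 1) ≃ Q) :
    (Finset.univ.filter (fun s : Fin (n + 1) => ∃ i : Fin (n + 1), Cov R (i : ℕ) (rot s e))).card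
      ≤ 2 := by
  by_cases hne : ∃ s i : Fin (n + 1), Cov R (i : ℕ) (rot s e)
  · obtain ⟨s, i, hsi⟩ := hne
    have h1 := (gp_cov hN hsi).2
    have h2 : (Gp R e).ncard ≤ 2 := by
      have h3 : Gp R e ⊆ {i + s, Fin.last n + s} := by
        intro p hp
        have : p - s ∈ Gp R (rot s e) := by
          rw [gp_rot]; simpa using hp
        rw [h1] at this
        rcases this with h | h
        · left; rw [← h]; abel
        · right
          rw [Set.mem_singleton_iff] at h ⊢
          rw [← h]; abel
      refine (Set.ncard_le_ncard h3 (Set.toFinite _)).trans ?_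
      refine (Set.ncard_insert_le _ _).trans ?_
      rw [Set.ncard_singleton]
    refine le_trans ?_ h2
    rw [← Set.ncard_coe_finset]
    apply Set.ncard_le_ncard_of_injOn (fun s => Fin.last n + s)
    · intro t ht
      simp only [Finset.coe_filter, Finset.mem_univ, true_and, Set.mem_ofPred_eq] at ht
      obtain ⟨j, hj⟩ := ht
      have h4 := (gp_cov hN hj).2
      have h5 : Fin.last n ∈ Gp R (rot t e) := by rw [h4]; right; rfl
      rwa [gp_rot] at h5
    · intro a _ b _ hab
      exact add_left_cancel hab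
  · rw [Finset.card_eq_zero.2]
    · omega
    · rw [Finset.filter_eq_empty_iff]
      intro s _ hs
      exact hne ⟨s, hs⟩

theorem circ : S_CIRC := by
  intro Q _ l R hl hc hN
  obtain ⟨n, rfl⟩ : ∃ n, l = n + 1 := ⟨l - 1, by omega⟩
  set C : Finset (Fin (n + 1) ≃ Q) :=
    Finset.univ.filter (fun e => ∃ i : Fin (n + 1), Cov R (i : ℕ) e) with hC
  have h1 : {p : (Fin (n + 1) ≃ Q) × Fin (n + 1) | Cov R (p.2 : ℕ) p.1}.ncard ≤ C.card := by
    rw [← Set.ncard_coe_finset]
    apply Set.ncard_le_ncard_of_injOn (fun p => p.1)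
    · intro p hp
      simp only [hC, Finset.coe_filter, Finset.mem_univ, true_and, Set.mem_ofPred_eq]
      exact ⟨p.2, hp⟩
    · rintro ⟨e, i⟩ hp ⟨e', i'⟩ hp' heq
      simp only at heq
      subst heq
      simp only [Set.mem_ofPred_eq] at hp hp'
      obtain ⟨a1, a2⟩ := gp_cov hN hp
      obtain ⟨b1, b2⟩ := gp_cov hN hp'
      have : i ∈ Gp R e := by rw [a2]; left; rfl
      rw [b2] at this
      rcases this with h | h
      · rw [h]
      · exact absurd h a1
  have h2 : (n + 1) * C.card ≤ 2 * (n + 1).factorial := by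
    have h3 : ∑ s : Fin (n + 1), ∑ e : Fin (n + 1) ≃ Q, (if rot s e ∈ C then 1 else 0)
        = (n + 1) * C.card := by
      have h4 : ∀ s : Fin (n + 1), ∑ e : Fin (n + 1) ≃ Q, (if rot s e ∈ C then 1 else 0)
          = C.card := by
        intro s
        have h5 : Function.Bijective (rot (Q := Q) s) :=
          Finite.injective_iff_bijective.1 (rot_inj s)
        rw [Function.Bijective.sum_comp h5 (fun e => if e ∈ C then 1 else 0)]
        simp
      rw [Finset.sum_congr rfl (fun s _ => h4 s)]
      simp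
    rw [← h3, Finset.sum_comm]
    calc ∑ e : Fin (n + 1) ≃ Q, ∑ s : Fin (n + 1), (if rot s e ∈ C then 1 else 0)
        ≤ ∑ e : Fin (n + 1) ≃ Q, 2 := by
          apply Finset.sum_le_sum
          intro e _
          rw [Finset.sum_boole]
          simp only [hC, Finset.mem_filter, Finset.mem_univ, true_and, Nat.cast_id]
          exact shifts_le hN e
      _ = 2 * (n + 1).factorial := by
          rw [Finset.sum_const, Finset.card_univ, card_eq hc, smul_eq_mul, mul_comm]
  have h6 : C.card ≤ 2 * n.factorial := by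
    rw [Nat.factorial_succ] at h2
    have : (n + 1) * C.card ≤ (n + 1) * (2 * n.factorial) := by
      calc (n + 1) * C.card ≤ 2 * ((n + 1) * n.factorial) := h2
        _ = (n + 1) * (2 * n.factorial) := by ring
    exact Nat.le_of_mul_le_mul_left this (Nat.succ_pos n)
  rw [show n + 1 - 1 = n by omega]
  exact h1.trans h6

theorem fix_le [Fintype Q] (hc : Fintype.card Q = n + 1) (v : Q) :
    (Finset.univ.filter (fun e : Fin (n + 1) ≃ Q => e 0 = v)).card ≤ n.factorial := by
  have h1 : (n + 1) * (Finset.univ.filter (fun e : Fin (n + 1) ≃ Q => e 0 = v)).card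
      ≤ (n + 1) * n.factorial := by
    have e1 : (n + 1) * (Finset.univ.filter (fun e : Fin (n + 1) ≃ Q => e 0 = v)).card
        = ((Finset.univ : Finset (Fin (n + 1))) ×ˢ
          (Finset.univ.filter (fun e : Fin (n + 1) ≃ Q => e 0 = v))).card := by
      rw [Finset.card_product, Finset.card_univ, Fintype.card_fin]
    rw [e1, ← Nat.factorial_succ, ← card_eq hc, ← Finset.card_univ]
    apply Finset.card_le_card_of_injOn (fun p => rot p.1 p.2)
    · intro p _
      exact Finset.mem_coe.2 (Finset.mem_univ _)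
    · rintro ⟨s, e⟩ hp ⟨s', e'⟩ hp' heq
      simp only [Finset.coe_product, Set.mem_prod, Finset.mem_coe, Finset.mem_univ, true_and,
        Finset.mem_filter] at hp hp'
      simp only at heq
      have h2 : rot s e (-s) = v := by rw [rot_apply]; simpa using hp
      have h3 : rot s' e' (-s') = v := by rw [rot_apply]; simpa using hp'
      rw [← heq] at h3
      have h4 : -s = -s' := (rot s e).injective (h2.trans h3.symm)
      have h5 : s = s' := neg_injective h4
      subst h5
      rw [rot_inj s heq]
  exact Nat.le_of_mul_le_mul_left h1 (Nat.succ_pos n)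

theorem circv : S_CIRCv := by
  intro Q _ l R v hl hc hN
  obtain ⟨n, rfl⟩ : ∃ n, l = n + 1 := ⟨l - 1, by omega⟩
  rw [show n + 1 - 1 = n by omega]
  set X : Set ((Fin (n + 1) ≃ Q) × Fin (n + 1)) :=
    {p | Cov R (p.2 : ℕ) p.1 ∧ 1 ≤ (p.2 : ℕ) ∧ p.1 p.2 = v} with hX
  set f : (Fin (n + 1) ≃ Q) × Fin (n + 1) → (Fin (n + 1) ≃ Q) := fun p => rot p.2 p.1 with hf
  have hgp : ∀ p ∈ X, Gp R (f p) = {0, Fin.last n - p.2} := by
    intro p hp
    have h1 := (gp_cov hN hp.1).2
    ext q
    rw [hf, gp_rot, h1]
    simp only [Set.mem_insert_iff, Set.mem_singleton_iff]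
    rw [add_eq_right, eq_sub_iff_add_eq]
  have hinj : Set.InjOn f X := by
    rintro ⟨e, i⟩ hp ⟨e', i'⟩ hp' heq
    have h1 := hgp _ hp
    have h2 := hgp _ hp'
    rw [heq, h2] at h1
    simp only at h1
    have hne : Fin.last n - i ≠ 0 := by
      rw [sub_ne_zero]
      exact (gp_cov hN hp.1).1.symm
    have h3 : Fin.last n - i ∈ ({0, Fin.last n - i'} : Set (Fin (n + 1))) := by
      rw [h1]; right; rfl
    have h4 : Fin.last n - i = Fin.last n - i' := by
      rcases h3 with h | h
      · exact absurd h hne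
      · exact h
    have h5 : i = i' := by
      have := sub_right_injective h4
      exact this
    subst h5
    have h6 : e = e' := rot_inj i heq
    rw [h6]
  set A : Finset (Fin (n + 1) ≃ Q) := (Set.toFinite (f '' X)).toFinset with hA
  have hAc : X.ncard = A.card := by
    rw [hA, ← Set.ncard_eq_toFinset_card, Set.InjOn.ncard_image hinj]
  have h0 : ∀ e ∈ A, e 0 = v ∧ ¬ R.Adj (e 0) (e 1) ∧ R.Adj (e (-1)) (e 0) := by
    intro e he
    rw [hA, Set.Finite.mem_toFinset] at he
    obtain ⟨p, hp, rfl⟩ := he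
    have h1 := hgp p hp
    refine ⟨?_, ?_, ?_⟩
    · rw [hf]
      simp only [rot_apply, zero_add]
      exact hp.2.2
    · have : (0 : Fin (n + 1)) ∈ Gp R (f p) := by rw [h1]; left; rfl
      simpa [Gp] using this
    · by_contra hcon
      have h2 : (-1 : Fin (n + 1)) ∈ Gp R (f p) := by
        simp only [Gp, Set.mem_ofPred_eq, neg_add_cancel]
        exact hcon
      rw [h1] at h2
      have hlast : (Fin.last n : Fin (n + 1)) = -1 := by
        rw [eq_neg_iff_add_eq_zero, last_add_one]
      rcases h2 with h | h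
      · have h3 : (1 : Fin (n + 1)) = 0 := by
          have := congrArg (fun x => -x) h
          simpa using this
        have := congrArg Fin.val h3
        rw [Fin.val_one', Nat.mod_eq_of_lt (by omega)] at this
        simp at this
      · rw [Set.mem_singleton_iff, hlast] at h
        have h3 : p.2 = 0 := by
          have : (-1 : Fin (n + 1)) - p.2 = -1 := h.symm
          simpa using this
        have h4 := hp.2.1
        rw [h3] at h4
        simp at h4
  have h1 : Disjoint A (A.image refl) := by
    rw [Finset.disjoint_left]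
    intro e he he'
    rw [Finset.mem_image] at he'
    obtain ⟨e', h1, rfl⟩ := he'
    have h2 := (h0 _ he).2.1
    have h3 := (h0 _ h1).2.2
    rw [refl_apply, refl_apply, neg_zero] at h2
    exact h2 h3.symm
  have h2 : A ∪ A.image refl ⊆ Finset.univ.filter (fun e : Fin (n + 1) ≃ Q => e 0 = v) := by
    intro e he
    rw [Finset.mem_union] at he
    rw [Finset.mem_filter]
    refine ⟨Finset.mem_univ _, ?_⟩
    rcases he with he | he
    · exact (h0 _ he).1
    · rw [Finset.mem_image] at he
      obtain ⟨e', h1, rfl⟩ := he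
      rw [refl_apply, neg_zero]
      exact (h0 _ h1).1
  have h3 := Finset.card_le_card h2
  rw [Finset.card_union_of_disjoint h1, Finset.card_image_of_injective _ refl_inj] at h3
  have h4 := fix_le hc v
  rw [hAc]
  omega

end Pool.Agent.Y348.PK.Circ
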