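import Pool.Agent.Y494.PK.Stm

/-!
Project PK: Part I, decomposition (job 3469).
-/

namespace Pool.Agent.Y348.PK.Dec

open Pool.Agent.Y494.PK Classical

/-- sum of degrees -/
theorem sum_dg {V : Type} [Fintype V] (G : SimpleGraph V) :
    {p : V × V | G.Adj p.1 p.2}.ncard = ∑ v : V, dg G v := by
  have h1 : {p : V × V | G.Adj p.1 p.2} =
      ((Finset.univ.filter (fun p : V × V => G.Adj p.1 p.2) : Finset (V × V)) : Set (V × V)) := by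
    ext p; simp
  have h2 : ∀ v : V, dg G v = (Finset.univ.filter (fun w => G.Adj v w)).card := by
    intro v
    have : G.neighborSet v = ((Finset.univ.filter (fun w => G.Adj v w) : Finset V) : Set V) := by
      ext p; simp
    rw [dg, this, Set.ncard_coe_finset]
  rw [h1, Set.ncard_coe_finset, Finset.card_filter, Fintype.sum_prod_type]
  apply Finset.sum_congr rfl
  intro v _
  rw [h2, Finset.card_filter]

theorem count_large {V : Type} [Fintype V] (G : SimpleGraph V) (l : ℕ) (hA3 : S_A3)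
    (hN : NoLong G l) (x : ℝ) (hx : 0 < x) (hV : 0 < Fintype.card V) :
    {v : V | x * (Fintype.card V : ℝ) ≤ (dg G v : ℝ)}.ncard ≤ ⌈(4 * l : ℝ) / x⌉₊ := by
  set T : Finset V := Finset.univ.filter (fun v => x * (Fintype.card V : ℝ) ≤ (dg G v : ℝ)) with hT
  have h1 : {v : V | x * (Fintype.card V : ℝ) ≤ (dg G v : ℝ)} = (T : Set V) := by
    ext v; simp [hT]
  rw [h1, Set.ncard_coe_finset]
  have h2 : (T.card : ℝ) * (x * (Fintype.card V : ℝ)) ≤ 4 * l * (Fintype.card V : ℝ) := by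
    calc (T.card : ℝ) * (x * (Fintype.card V : ℝ)) = ∑ v ∈ T, (x * (Fintype.card V : ℝ)) := by
          rw [Finset.sum_const, nsmul_eq_mul]
      _ ≤ ∑ v ∈ T, (dg G v : ℝ) := by
          apply Finset.sum_le_sum
          intro v hv
          exact (Finset.mem_filter.1 hv).2
      _ ≤ ∑ v : V, (dg G v : ℝ) := by
          apply Finset.sum_le_sum_of_subset_of_nonneg (Finset.subset_univ _)
          intros; positivity
      _ = ((∑ v : V, dg G v : ℕ) : ℝ) := by push_cast; rfl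
      _ ≤ 4 * l * (Fintype.card V : ℝ) := by
          rw [← sum_dg]
          exact_mod_cast hA3 V G l hN
  have hVr : (0 : ℝ) < Fintype.card V := by exact_mod_cast hV
  have h3 : (T.card : ℝ) ≤ (4 * l : ℝ) / x := by
    rw [le_div_iff₀ hx]
    have : ((T.card : ℝ) * x) * (Fintype.card V : ℝ) ≤ (4 * l) * (Fintype.card V : ℝ) := by
      linarith
    exact le_of_mul_le_mul_right this hVr
  have h4 : (T.card : ℝ) ≤ (⌈(4 * l : ℝ) / x⌉₊ : ℝ) := h3.trans (Nat.le_ceil _)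
  exact_mod_cast h4

/-- constant depending on the lower cut -/
noncomputable def m1 (q : ℕ) : ℝ := 16 * ((q : ℝ) + 2) ^ 3 * (4 * ((q : ℝ) + 2)) ^ q

noncomputable def m2 (q s : ℕ) : ℝ :=
  ((q : ℝ) + 2) * 4 ^ s * (32 * ((q : ℝ) + 2)) * (s : ℝ) ^ (q + 1)

noncomputable def k0 (q s : ℕ) : ℝ :=
  (((q + 2) * s ^ 2 * (4 * (q + 2)) ^ (q + 1) : ℕ) : ℝ)
  + (((q + 2) ^ 2 * (2 ^ s * (8 * (q + 2))) * s ^ (q + 2) : ℕ) : ℝ)
  + (((q + 2) * (4 * (q + 2)) * s ^ (q + 1) * ((q + 1) * (2 ^ s * (8 * (q + 2)))) : ℕ) : ℝ)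

theorem arith (q n s σα σβ U UP D : ℕ) (γ δ : ℝ) (hα : s ≤ σα) (hβ : s ≤ σβ)
    (hU : U ≤ 2 ^ s * (8 * (q + 2))) (hUP : UP ≤ 4 ^ s * (32 * (q + 2) * D))
    (hD : (D : ℝ) ≤ γ * n) (hγ : (m1 q + m2 q σα) * γ ≤ δ) (hK : k0 q σβ ≤ δ * n) (hγ0 : 0 ≤ γ) :
    (((q + 2) * s ^ 2 * (4 * (q + 2) * n) ^ (q + 1)
      + (q + 2) * (16 * (q + 2) ^ 2 * D * n) * (4 * (q + 2) * n) ^ q : ℕ) : ℝ)
    + (((q + 2) ^ 2 * U * n ^ (q + 1) * s ^ (q + 2) : ℕ) : ℝ)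
    + (((q + 2) * UP * s ^ (q + 1) * n ^ (q + 1)
      + (q + 2) * (4 * (q + 2) * n) * s ^ (q + 1) * ((q + 1) * U * n ^ q) : ℕ) : ℝ)
    ≤ 2 * δ * (n : ℝ) ^ (q + 2) := by
  have a1 : (q + 2) * s ^ 2 * (4 * (q + 2) * n) ^ (q + 1)
      ≤ (q + 2) * σβ ^ 2 * (4 * (q + 2)) ^ (q + 1) * n ^ (q + 1) := by
    rw [mul_pow (4 * (q + 2)) n, ← mul_assoc]
    gcongr
  have a2 : (q + 2) ^ 2 * U * n ^ (q + 1) * s ^ (q + 2)
      ≤ (q + 2) ^ 2 * (2 ^ σβ * (8 * (q + 2))) * σβ ^ (q + 2) * n ^ (q + 1) := by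
    have : U ≤ 2 ^ σβ * (8 * (q + 2)) := hU.trans (by gcongr; omega)
    calc (q + 2) ^ 2 * U * n ^ (q + 1) * s ^ (q + 2)
        ≤ (q + 2) ^ 2 * (2 ^ σβ * (8 * (q + 2))) * n ^ (q + 1) * σβ ^ (q + 2) := by gcongr
      _ = _ := by ring
  have a3 : (q + 2) * (4 * (q + 2) * n) * s ^ (q + 1) * ((q + 1) * U * n ^ q)
      ≤ (q + 2) * (4 * (q + 2)) * σβ ^ (q + 1) * ((q + 1) * (2 ^ σβ * (8 * (q + 2))))
        * n ^ (q + 1) := by
    have : U ≤ 2 ^ σβ * (8 * (q + 2)) := hU.trans (by gcongr; omega)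
    calc (q + 2) * (4 * (q + 2) * n) * s ^ (q + 1) * ((q + 1) * U * n ^ q)
        ≤ (q + 2) * (4 * (q + 2) * n) * σβ ^ (q + 1)
          * ((q + 1) * (2 ^ σβ * (8 * (q + 2))) * n ^ q) := by gcongr
      _ = _ := by ring
  have b1 : (((q + 2) * (16 * (q + 2) ^ 2 * D * n) * (4 * (q + 2) * n) ^ q : ℕ) : ℝ)
      ≤ m1 q * γ * (n : ℝ) ^ (q + 2) := by
    push_cast
    calc ((q : ℝ) + 2) * (16 * ((q : ℝ) + 2) ^ 2 * D * n) * (4 * ((q : ℝ) + 2) * n) ^ q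
        ≤ ((q : ℝ) + 2) * (16 * ((q : ℝ) + 2) ^ 2 * (γ * n) * n) * (4 * ((q : ℝ) + 2) * n) ^ q := by
          gcongr
      _ = _ := by
          rw [m1, mul_pow]; ring
  have b2 : (((q + 2) * UP * s ^ (q + 1) * n ^ (q + 1) : ℕ) : ℝ)
      ≤ m2 q σα * γ * (n : ℝ) ^ (q + 2) := by
    have h1 : (UP : ℝ) ≤ 4 ^ σα * (32 * ((q : ℝ) + 2) * (γ * n)) := by
      calc (UP : ℝ) ≤ ((4 ^ s * (32 * (q + 2) * D) : ℕ) : ℝ) := by exact_mod_cast hUP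
        _ = 4 ^ s * (32 * ((q : ℝ) + 2) * D) := by push_cast; ring
        _ ≤ 4 ^ σα * (32 * ((q : ℝ) + 2) * (γ * n)) := by
            gcongr
            norm_num
    have h2 : (s : ℝ) ≤ σα := by exact_mod_cast hα
    push_cast
    calc ((q : ℝ) + 2) * UP * (s : ℝ) ^ (q + 1) * (n : ℝ) ^ (q + 1)
        ≤ ((q : ℝ) + 2) * (4 ^ σα * (32 * ((q : ℝ) + 2) * (γ * n))) * (σα : ℝ) ^ (q + 1)
          * (n : ℝ) ^ (q + 1) := by gcongr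
      _ = _ := by rw [m2]; ring
  have a1' : (((q + 2) * s ^ 2 * (4 * (q + 2) * n) ^ (q + 1) : ℕ) : ℝ)
      ≤ (((q + 2) * σβ ^ 2 * (4 * (q + 2)) ^ (q + 1) : ℕ) : ℝ) * (n : ℝ) ^ (q + 1) := by
    exact_mod_cast a1
  have a2' : (((q + 2) ^ 2 * U * n ^ (q + 1) * s ^ (q + 2) : ℕ) : ℝ)
      ≤ (((q + 2) ^ 2 * (2 ^ σβ * (8 * (q + 2))) * σβ ^ (q + 2) : ℕ) : ℝ) * (n : ℝ) ^ (q + 1) := by
    exact_mod_cast a2
  have a3' : (((q + 2) * (4 * (q + 2) * n) * s ^ (q + 1) * ((q + 1) * U * n ^ q) : ℕ) : ℝ)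
      ≤ (((q + 2) * (4 * (q + 2)) * σβ ^ (q + 1) * ((q + 1) * (2 ^ σβ * (8 * (q + 2)))) : ℕ) : ℝ)
        * (n : ℝ) ^ (q + 1) := by
    exact_mod_cast a3
  have c1 : k0 q σβ * (n : ℝ) ^ (q + 1) ≤ δ * (n : ℝ) ^ (q + 2) := by
    calc k0 q σβ * (n : ℝ) ^ (q + 1) ≤ δ * n * (n : ℝ) ^ (q + 1) := by gcongr
      _ = _ := by ring
  have c2 : (m1 q + m2 q σα) * γ * (n : ℝ) ^ (q + 2) ≤ δ * (n : ℝ) ^ (q + 2) := by gcongr
  rw [k0] at c1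
  rw [Nat.cast_add, Nat.cast_add]
  nlinarith [a1', a2', a3', b1, b2, c1, c2]

theorem m1_pos (q : ℕ) : 0 < m1 q := by
  unfold m1; positivity

theorem m2_nonneg (q s : ℕ) : 0 ≤ m2 q s := by
  unfold m2; positivity

/-- the cut function -/
noncomputable def gc (q : ℕ) (δ x : ℝ) : ℝ :=
  min x (δ / (m1 q + m2 q ⌈(4 * ((q + 1 + 1 : ℕ) : ℝ)) / x⌉₊))

theorem gc_spec (q : ℕ) (δ : ℝ) (hδ : 0 < δ) (x : ℝ) (hx : 0 < x) :
    0 < gc q δ x ∧ gc q δ x ≤ x := by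
  have h := m1_pos q
  have h2 := m2_nonneg q ⌈(4 * ((q + 1 + 1 : ℕ) : ℝ)) / x⌉₊
  refine ⟨lt_min hx (by positivity), min_le_left _ _⟩

theorem dec (hA3 : S_A3) (hGAP : S_GAP) (hB1 : S_B1) (hUCS : S_UCS) (hUCP : S_UCP)
    (hTR1 : S_TR1) (hTR2 : S_TR2) (hTR3 : S_TR3) : S_DEC := by
  intro r hr δ hδ
  obtain ⟨q, rfl⟩ : ∃ q, r = q + 1 := ⟨r - 1, by omega⟩
  set δ' : ℝ := δ / 3 with hδ'
  have hδ'0 : 0 < δ' := by positivity
  obtain ⟨β, hβ, hgap⟩ := hGAP (q + 1 + 1) (by omega) δ' hδ'0 (gc q δ') (gc_spec q δ' hδ'0)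
  set σβ : ℕ := ⌈(4 * ((q + 1 + 1 : ℕ) : ℝ)) / β⌉₊ with hσβ
  refine ⟨β, hβ, max 1 (max ⌈k0 q σβ / δ'⌉₊ ⌈(((8 * (q + 1 + 1) + σβ : ℕ) : ℝ)) / β⌉₊), ?_⟩
  intro V _ G hn hNL
  obtain ⟨α, hα1, hαβ, hβg, hcount⟩ := hgap V G hNL
  have hα0 : 0 < α := lt_of_lt_of_le hβ hαβ
  set γ : ℝ := gc q δ' α with hγ
  have hγ0 : 0 < γ := (gc_spec q δ' hδ'0 α hα0).1
  have hγα : γ ≤ α := (gc_spec q δ' hδ'0 α hα0).2
  set n : ℕ := Fintype.card V with hnV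
  have hn1 : 0 < n := by
    have := (le_max_left 1 _).trans hn
    omega
  have hnr : (0 : ℝ) < n := by exact_mod_cast hn1
  have hn2 : k0 q σβ ≤ δ' * n := by
    have h1 : ⌈k0 q σβ / δ'⌉₊ ≤ n := ((le_max_left _ _).trans (le_max_right _ _)).trans hn
    have h2 : k0 q σβ / δ' ≤ n := (Nat.le_ceil _).trans (by exact_mod_cast h1)
    rw [div_le_iff₀ hδ'0] at h2
    linarith
  have hn3 : ((8 * (q + 1 + 1) + σβ : ℕ) : ℝ) ≤ β * n := by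
    have h1 : ⌈(((8 * (q + 1 + 1) + σβ : ℕ) : ℝ)) / β⌉₊ ≤ n :=
      ((le_max_right _ _).trans (le_max_right _ _)).trans hn
    have h2 : (((8 * (q + 1 + 1) + σβ : ℕ) : ℝ)) / β ≤ n :=
      (Nat.le_ceil _).trans (by exact_mod_cast h1)
    rw [div_le_iff₀ hβ] at h2
    linarith
  set S : Set V := {v | α * (n : ℝ) ≤ (dg G v : ℝ)} with hS
  set L : Set V := {v | (dg G v : ℝ) < γ * (n : ℝ)} with hL
  set D : ℕ := ⌊γ * (n : ℝ)⌋₊ with hD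
  have hdis : ∀ v ∈ S, v ∉ L := by
    intro v hv hv'
    simp only [hS, hL, Set.mem_ofPred_eq] at hv hv'
    have : γ * (n : ℝ) ≤ α * n := by gcongr
    linarith
  have hLD : ∀ x ∈ L, dg G x ≤ D := by
    intro x hx
    exact Nat.le_floor hx.le
  have hDγ : (D : ℝ) ≤ γ * n := Nat.floor_le (by positivity)
  have hsα : S.ncard ≤ ⌈(4 * ((q + 1 + 1 : ℕ) : ℝ)) / α⌉₊ :=
    count_large G (q + 1 + 1) hA3 hNL α hα0 hn1
  have hBσ : {v : V | γ * (n : ℝ) ≤ (dg G v : ℝ)}.ncard ≤ σβ := by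
    refine (count_large G (q + 1 + 1) hA3 hNL γ hγ0 hn1).trans ?_
    apply Nat.ceil_mono
    gcongr
  have hsβ : S.ncard ≤ σβ := by
    refine le_trans (Set.ncard_le_ncard ?_ (Set.toFinite _)) hBσ
    intro v hv
    simp only [hS, Set.mem_ofPred_eq] at hv ⊢
    have : γ * (n : ℝ) ≤ α * n := by gcongr
    linarith
  have hends : ∀ a ∈ S, 8 * (q + 1 + 1) ≤ {x | x ∈ L ∧ G.Adj a x}.ncard := by
    intro a ha
    have h1 : G.neighborSet a ⊆ {x | x ∈ L ∧ G.Adj a x} ∪ {v : V | γ * (n : ℝ) ≤ (dg G v : ℝ)} := by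
      intro x hx
      by_cases hxl : x ∈ L
      · exact Or.inl ⟨hxl, hx⟩
      · right
        simp only [hL, Set.mem_ofPred_eq, not_lt] at hxl ⊢
        exact hxl
    have h2 := (Set.ncard_le_ncard h1 (Set.toFinite _)).trans (Set.ncard_union_le _ _)
    have h3 : (dg G a : ℝ) ≤ ({x | x ∈ L ∧ G.Adj a x}.ncard : ℝ) + σβ := by
      have : dg G a ≤ {x | x ∈ L ∧ G.Adj a x}.ncard + σβ := h2.trans (by omega)
      exact_mod_cast this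
    have h4 : β * (n : ℝ) ≤ α * n := by gcongr
    have h5 : α * (n : ℝ) ≤ dg G a := ha
    push_cast at hn3
    have h6 : (8 * ((q : ℝ) + 1 + 1)) ≤ ({x | x ∈ L ∧ G.Adj a x}.ncard : ℝ) := by linarith
    exact_mod_cast h6
  have hEnv : Env G (q + 1 + 1) S L := ⟨by omega, hNL, hdis, hends⟩
  refine ⟨S, L, hEnv, ?_, ?_⟩
  · intro a ha
    have h4 : β * (n : ℝ) ≤ α * n := by gcongr
    have h5 : α * (n : ℝ) ≤ dg G a := ha
    linarith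
  have h2l : ∀ a ∈ S, 2 * (q + 1 + 1) ≤ dg G a := by
    intro a ha
    have h1 : {x | x ∈ L ∧ G.Adj a x}.ncard ≤ dg G a :=
      Set.ncard_le_ncard (fun x hx => hx.2) (Set.toFinite _)
    have := hends a ha
    omega
  have e1 := hB1 V G (q + 1 + 1) D S L (by omega) hNL hdis hLD h2l
  have e2 := hTR1 V G (q + 1) S L hdis
  have e3 := hTR2 V G (q + 1) S L hEnv
  have e4 := hTR3 V G (q + 1) S L (by omega) hNL hdis
  have u1 := hUCS V G (q + 1 + 1) S L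
  have u2 := hUCP V G (q + 1 + 1) D S L hLD
  set A1 := {p : (Fin (q + 1 + 1) → V) × (Fin (q + 1 + 1) → V) | IsDP G (q + 1 + 1) p.1 p.2 ∧
      ∃ v : V, (∃ j, p.1 j = v ∨ p.2 j = v) ∧ gc q δ' α * (Fintype.card V : ℝ) ≤ (dg G v : ℝ) ∧
        (dg G v : ℝ) < α * (Fintype.card V : ℝ)} with hA1
  set A2 := {p : (Fin (q + 1 + 1) → V) × (Fin (q + 1 + 1) → V) | IsDP G (q + 1 + 1) p.1 p.2 ∧
    (∀ j, p.1 j ∈ S ∪ L ∧ p.2 j ∈ S ∪ L) ∧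
    (∀ a, 1 ≤ a → a < (q + 1 + 1) → ¬ Pat1 S L p.1 p.2 a) ∧
    (∀ a, a < (q + 1 + 1) → ¬ Pat2 S L p.1 p.2 a)} with hA2
  set A3 := {p : (Fin (q + 1 + 1) → V) × (Fin (q + 1 + 1) → V) | IsDP G (q + 1 + 1) p.1 p.2 ∧
    ∃ a, 1 ≤ a ∧ a < q + 1 + 1 ∧ Pat1 S L p.1 p.2 a} with hA3'
  set A4 := {p : (Fin (q + 1 + 1) → V) × (Fin (q + 1 + 1) → V) | IsDP G (q + 1 + 1) p.1 p.2 ∧
    ∃ a : Fin (q + 1 + 1), Pat2 S L p.1 p.2 a ∧ Clp G (q + 1 + 1) S L (p.1 a) (p.2 a) ∧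
      (∀ j, p.1 j ∈ L → Cl G (q + 1 + 1) S L (p.1 j)) ∧
      (∀ j, p.2 j ∈ L → Cl G (q + 1 + 1) S L (p.2 j))} with hA4
  set A5 := {p : (Fin (q + 1 + 1) → V) × (Fin (q + 1 + 1) → V) | IsDP G (q + 1 + 1) p.1 p.2 ∧
    (∃ a : Fin (q + 1 + 1), Pat2 S L p.1 p.2 a) ∧
    ¬ ∃ a : Fin (q + 1 + 1), Pat2 S L p.1 p.2 a ∧ Clp G (q + 1 + 1) S L (p.1 a) (p.2 a) ∧
      (∀ j, p.1 j ∈ L → Cl G (q + 1 + 1) S L (p.1 j)) ∧
      (∀ j, p.2 j ∈ L → Cl G (q + 1 + 1) S L (p.2 j))} with hA5'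
  have hcov : DP G (q + 1 + 1) ⊆ A1 ∪ (A2 ∪ (A3 ∪ (A4 ∪ A5))) := by
    intro p hp
    by_cases h1 : p ∈ A1
    · exact Or.inl h1
    · right
      have h2 : ∀ v : V, (∃ j, p.1 j = v ∨ p.2 j = v) → v ∈ S ∪ L := by
        intro v hv
        by_contra hcon
        apply h1
        refine ⟨hp, v, hv, ?_, ?_⟩
        · by_contra h3
          exact hcon (Or.inr (not_le.1 h3))
        · by_contra h3
          exact hcon (Or.inl (not_lt.1 h3))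
      by_cases h3 : p ∈ A3
      · exact Or.inr (Or.inl h3)
      · by_cases h4 : p ∈ A4
        · exact Or.inr (Or.inr (Or.inl h4))
        · by_cases h5 : p ∈ A5
          · exact Or.inr (Or.inr (Or.inr h5))
          · left
            refine ⟨hp, fun j => ⟨h2 _ ⟨j, Or.inl rfl⟩, h2 _ ⟨j, Or.inr rfl⟩⟩, ?_, ?_⟩
            · intro a ha1 ha2 ha3
              exact h3 ⟨hp, a, ha1, ha2, ha3⟩
            · intro a ha1 ha2
              by_cases h6 : ∃ a : Fin (q + 1 + 1), Pat2 S L p.1 p.2 a ∧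
                  Clp G (q + 1 + 1) S L (p.1 a) (p.2 a) ∧
                  (∀ j, p.1 j ∈ L → Cl G (q + 1 + 1) S L (p.1 j)) ∧
                  (∀ j, p.2 j ∈ L → Cl G (q + 1 + 1) S L (p.2 j))
              · exact h4 ⟨hp, h6⟩
              · exact h5 ⟨hp, ⟨⟨a, ha1⟩, ha2⟩, h6⟩
  have hsum : (DP G (q + 1 + 1)).ncard ≤ A1.ncard + (A2.ncard + (A3.ncard + (A4.ncard + A5.ncard))) := by
    refine (Set.ncard_le_ncard hcov (Set.toFinite _)).trans ?_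
    refine (Set.ncard_union_le _ _).trans ?_
    gcongr
    refine (Set.ncard_union_le _ _).trans ?_
    gcongr
    refine (Set.ncard_union_le _ _).trans ?_
    gcongr
    exact Set.ncard_union_le _ _
  set U := {x | x ∈ L ∧ ¬ Cl G (q + 1 + 1) S L x}.ncard with hU
  set UP := {p : V × V | p.1 ∈ L ∧ p.2 ∈ L ∧ G.Adj p.1 p.2 ∧
        ¬ Clp G (q + 1 + 1) S L p.1 p.2}.ncard with hUP
  have key := arith q n S.ncard _ σβ U UP D γ δ' hsα hsβ u1 u2 hDγ (by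
      have h3 : 0 < m1 q + m2 q ⌈(4 * ((q + 1 + 1 : ℕ) : ℝ)) / α⌉₊ := by
        have := m1_pos q
        have := m2_nonneg q ⌈(4 * ((q + 1 + 1 : ℕ) : ℝ)) / α⌉₊
        linarith
      have h4 : γ ≤ δ' / (m1 q + m2 q ⌈(4 * ((q + 1 + 1 : ℕ) : ℝ)) / α⌉₊) := min_le_right _ _
      rw [le_div_iff₀ h3] at h4
      linarith) hn2 hγ0.le
  have hsumR : ((DP G (q + 1 + 1)).ncard : ℝ) ≤ (A1.ncard : ℝ) + ((A2.ncard : ℝ)
      + ((A3.ncard : ℝ) + ((A4.ncard : ℝ) + (A5.ncard : ℝ)))) := by exact_mod_cast hsum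
  have e1R : (A2.ncard : ℝ) ≤ (((q + 2) * S.ncard ^ 2 * (4 * (q + 2) * n) ^ (q + 1)
      + (q + 2) * (16 * (q + 2) ^ 2 * D * n) * (4 * (q + 2) * n) ^ q : ℕ) : ℝ) := by
    exact_mod_cast e1
  have e2R : (A3.ncard : ℝ) ≤ ((T1c G (q + 1) S L).ncard : ℝ)
      + (((q + 2) ^ 2 * U * n ^ (q + 1) * S.ncard ^ (q + 2) : ℕ) : ℝ) := by
    exact_mod_cast e2
  have e3R : (A4.ncard : ℝ) ≤ 2 * ((Ec G (q + 1) S L).ncard : ℝ)
      + 2 * ((Mc G (q + 1) S L).ncard : ℝ) := by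
    exact_mod_cast e3
  have e4R : (A5.ncard : ℝ) ≤ (((q + 2) * UP * S.ncard ^ (q + 1) * n ^ (q + 1)
      + (q + 2) * (4 * (q + 2) * n) * S.ncard ^ (q + 1) * ((q + 1) * U * n ^ q) : ℕ) : ℝ) := by
    exact_mod_cast e4
  have hc1 : (A1.ncard : ℝ) ≤ δ' * (n : ℝ) ^ (q + 2) := hcount
  have hfin : δ * (n : ℝ) ^ (q + 2) = 3 * (δ' * (n : ℝ) ^ (q + 2)) := by
    rw [hδ']; ring
  show ((DP G (q + 1 + 1)).ncard : ℝ) ≤ ((T1c G (q + 1) S L).ncard : ℝ)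
    + 2 * ((Ec G (q + 1) S L).ncard : ℝ) + 2 * ((Mc G (q + 1) S L).ncard : ℝ)
    + δ * (n : ℝ) ^ (q + 2)
  rw [hfin]
  linarith

end Pool.Agent.Y348.PK.Dec
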