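import Pool.Agent.Y494.PK.Stm

/-!
Project PK: embedding of skeletons and caps (job 3452).
-/

namespace Pool.Agent.Y348.PK.Emb

open Pool.Agent.Y494.PK Classical

variable {V : Type} [Fintype V] {G : SimpleGraph V} {l : ℕ} {S L : Set V}

theorem exists_low {X : Set V} {F : Finset V} (h1 : 8 * l ≤ X.ncard) (h2 : F.card < 8 * l) :
    ∃ x ∈ X, x ∉ F := by
  by_contra hcon
  push Not at hcon
  have h3 : X ⊆ (F : Set V) := fun x hx => hcon x hx
  have h4 := Set.ncard_le_ncard h3 (Set.toFinite _)
  rw [Set.ncard_coe_finset] at h4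
  omega

omit [Fintype V] in
theorem exists_pair {P Z : Fin (8 * l) → V} {F : Finset V} (hF : F.card < 8 * l)
    (h : ∀ i j, i ≠ j → P i ≠ P j ∧ Z i ≠ Z j ∧ P i ≠ Z j) : ∃ i, P i ∉ F ∧ Z i ∉ F := by
  by_contra hcon
  push Not at hcon
  have h1 : ∀ i, ∃ v, v ∈ F ∧ (v = P i ∨ v = Z i) := by
    intro i
    by_cases hp : P i ∈ F
    · exact ⟨P i, hp, Or.inl rfl⟩
    · exact ⟨Z i, hcon i hp, Or.inr rfl⟩
  choose f hf1 hf2 using h1
  have h2 : Function.Injective f := by
    intro i j hij
    by_contra hne
    obtain ⟨a1, a2, a3⟩ := h i j hne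
    have b3 := (h j i (Ne.symm hne)).2.2
    rcases hf2 i with e | e <;> rcases hf2 j with e' | e'
    · exact a1 (by rw [← e, hij, e'])
    · exact a3 (by rw [← e, hij, e'])
    · exact b3 (by rw [← e', ← hij, e])
    · exact a2 (by rw [← e, hij, e'])
  have h3 := Finset.card_le_card_of_injOn (s := (Finset.univ : Finset (Fin (8 * l)))) (t := F) f
    (fun i _ => hf1 i) h2.injOn
  rw [Finset.card_univ, Fintype.card_fin] at h3
  omega

theorem skn_succ {m : ℕ} (hm : 1 ≤ m) (c : ℕ → ℕ) (d : ℕ) :
    SkN (m + 1) c d = 1 + c 0 + SkN m (fun j => c (j + 1)) d := by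
  obtain ⟨k, rfl⟩ : ∃ k, m = k + 1 := ⟨m - 1, by omega⟩
  unfold SkN
  rw [show k + 1 + 1 - 1 = k + 1 by omega, show k + 1 - 1 = k by omega, Finset.sum_range_succ']
  dsimp only
  omega

theorem emb_aux (hE : Env G l S L) : ∀ (m : ℕ) (h : Fin (m + 1) → V) (c : ℕ → ℕ) (d : ℕ),
    Skel G l S L h c d → ∀ F : Finset V, F.card + SkN (m + 1) c d ≤ 8 * l →
    ∃ p : List V, LP G p ∧ p.length = SkN (m + 1) c d ∧ p.head? = some (h 0) ∧
      ∀ v ∈ p, v ∈ Set.range h ∨ (v ∈ L ∧ v ∉ F) := by
  intro m
  induction m with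
  | zero =>
    intro h c d hs F hF
    have hS0 := hs.hS 0
    have hnL := hE.dis _ hS0
    rcases hs.en with hd | ⟨hd, hpe⟩
    · subst hd
      simp only [SkN, zero_add, Nat.sub_self, Finset.range_zero, Finset.sum_empty] at hF ⊢
      obtain ⟨x, hx, hxF⟩ := exists_low (hE.ends _ hS0) (show F.card < 8 * l by omega)
      refine ⟨[h 0, x], ⟨?_, ?_⟩, rfl, rfl, ?_⟩
      · have : h 0 ≠ x := hx.2.ne
        simpa using this
      · simpa using hx.2
      · intro v hv
        simp only [List.mem_cons, List.not_mem_nil, or_false] at hv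
        rcases hv with rfl | rfl
        · exact Or.inl ⟨0, rfl⟩
        · exact Or.inr ⟨hx.1, hxF⟩
    · subst hd
      simp only [SkN, zero_add, Nat.sub_self, Finset.range_zero, Finset.sum_empty] at hF ⊢
      obtain ⟨x, z, ⟨_, _, _, P, Z, hPZ, hne⟩, hx⟩ := hpe 0 (by simp)
      obtain ⟨i, hi1, hi2⟩ := exists_pair (show F.card < 8 * l by omega) hne
      obtain ⟨q1, q2, q3, q4, q5⟩ := hPZ i
      have hadj : G.Adj (h 0) (P i) := by
        rw [← q4] at hx
        exact hx.2
      refine ⟨[h 0, P i, Z i], ⟨?_, ?_⟩, rfl, rfl, ?_⟩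
      · have e1 : h 0 ≠ P i := hadj.ne
        have e2 : h 0 ≠ Z i := fun h' => hnL (h' ▸ q2)
        have e3 : P i ≠ Z i := q3.ne
        simp [e1, e2, e3]
      · simp [hadj, q3]
      · intro v hv
        simp only [List.mem_cons, List.not_mem_nil, or_false] at hv
        rcases hv with rfl | rfl | rfl
        · exact Or.inl ⟨0, rfl⟩
        · exact Or.inr ⟨q1, hi1⟩
        · exact Or.inr ⟨q2, hi2⟩
  | succ m ih =>
    intro h c d hs F hF
    rw [skn_succ (by omega)] at hF ⊢
    have hS0 := hs.hS 0
    have hnL := hE.dis _ hS0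
    have hs' : Skel G l S L (fun j : Fin (m + 1) => h j.succ) (fun j => c (j + 1)) d := by
      refine ⟨by omega, ?_, fun j => hs.hS _, ?_, ?_⟩
      · intro a b hab
        exact Fin.succ_injective _ (hs.inj hab)
      · intro j k hjk
        have := hs.lk j.succ k.succ (by simp [hjk])
        simpa using this
      · rcases hs.en with hd | ⟨hd, hpe⟩
        · exact Or.inl hd
        · refine Or.inr ⟨hd, fun j hj => hpe _ ?_⟩
          simp only [Fin.val_succ]
          omega
    -- the prefix
    have step : ∀ w : List V, w.length = c 0 → (h 0 :: w).IsChain G.Adj → w.Nodup →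
        (∀ v ∈ w, v ∈ L ∧ v ∉ F) → (∀ v ∈ (h 0 :: w).getLast?, G.Adj v (h 1)) →
        ∃ p : List V, LP G p ∧ p.length = 1 + c 0 + SkN (m + 1) (fun j => c (j + 1)) d ∧
          p.head? = some (h 0) ∧ ∀ v ∈ p, v ∈ Set.range h ∨ (v ∈ L ∧ v ∉ F) := by
      intro w hw1 hw2 hw3 hw4 hw5
      obtain ⟨p, ⟨hp1, hp2⟩, hp3, hp4, hp5⟩ := ih _ _ d hs' (F ∪ w.toFinset) (by
        have h1 := Finset.card_union_le F w.toFinset
        have h2 := List.toFinset_card_le w
        omega)
      refine ⟨h 0 :: w ++ p, ⟨?_, ?_⟩, ?_, rfl, ?_⟩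
      · rw [List.nodup_append]
        refine ⟨?_, hp1, ?_⟩
        · rw [List.nodup_cons]
          exact ⟨fun hh => hnL (hw4 _ hh).1, hw3⟩
        · intro a ha b hb hab
          subst hab
          rcases List.mem_cons.1 ha with rfl | ha
          · rcases hp5 _ hb with ⟨j, hj⟩ | ⟨hL, _⟩
            · have := hs.inj hj
              exact Fin.succ_ne_zero _ this
            · exact hnL hL
          · rcases hp5 _ hb with ⟨j, hj⟩ | ⟨hL, hF'⟩
            · simp only at hj
              exact hE.dis _ (hs.hS j.succ) (hj ▸ (hw4 _ ha).1)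
            · apply hF'
              rw [Finset.mem_union, List.mem_toFinset]
              exact Or.inr ha
      · rw [List.isChain_append]
        refine ⟨hw2, hp2, ?_⟩
        intro x hx y hy
        rw [hp4] at hy
        simp only [Option.mem_def, Option.some.injEq] at hy
        rw [← hy]
        exact hw5 x hx
      · rw [List.length_append, List.length_cons, hw1, hp3]
        omega
      · intro v hv
        rw [List.mem_append] at hv
        rcases hv with hv | hv
        · rcases List.mem_cons.1 hv with rfl | hv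
          · exact Or.inl ⟨0, rfl⟩
          · exact Or.inr (hw4 _ hv)
        · rcases hp5 _ hv with ⟨j, hj⟩ | ⟨hL, hF'⟩
          · exact Or.inl ⟨_, hj⟩
          · refine Or.inr ⟨hL, fun hh => hF' ?_⟩
            rw [Finset.mem_union]
            exact Or.inl hh
    have hlk := hs.lk 0 1 (by simp)
    simp only [Fin.val_zero] at hlk
    rcases hlk with ⟨hc, hadj⟩ | ⟨hc, hadj⟩ | ⟨hc, hpl⟩
    · apply step []
      · rw [hc]; rfl
      · simp
      · simp
      · simp
      · intro v hv
        simp only [List.getLast?_singleton, Option.mem_def, Option.some.injEq] at hv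
        rw [← hv]
        exact hadj
    · obtain ⟨_, _, _, hcard⟩ := hadj
      obtain ⟨x, ⟨hxL, hx1, hx2⟩, hxF⟩ := exists_low hcard (show F.card < 8 * l by omega)
      apply step [x]
      · rw [hc]; rfl
      · simpa using hx1
      · simp
      · simp [hxL, hxF]
      · intro v hv
        simp only [List.getLast?_cons_cons, List.getLast?_singleton, Option.mem_def,
          Option.some.injEq] at hv
        rw [← hv]
        exact hx2.symm
    · obtain ⟨x, z, ⟨_, _, _, P, Z, hPZ, hne⟩, hx, hz⟩ := hpl
      obtain ⟨i, hi1, hi2⟩ := exists_pair (show F.card < 8 * l by omega) hne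
      obtain ⟨q1, q2, q3, q4, q5⟩ := hPZ i
      have hadj : G.Adj (h 0) (P i) := by
        rw [← q4] at hx
        exact hx.2
      have hadj' : G.Adj (h 1) (Z i) := by
        rw [← q5] at hz
        exact hz.2
      apply step [P i, Z i]
      · rw [hc]; rfl
      · simp [hadj, q3]
      · simpa using q3.ne
      · simp [q1, q2, hi1, hi2]
      · intro v hv
        simp only [List.getLast?_cons_cons, List.getLast?_singleton, Option.mem_def,
          Option.some.injEq] at hv
        rw [← hv]
        exact hadj'.symm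

theorem emb : S_EMB := by
  intro V _ G l S L hE m h c d hs F hF
  obtain ⟨k, rfl⟩ : ∃ k, m = k + 1 := ⟨m - 1, by have := hs.pos; omega⟩
  obtain ⟨p, h1, h2, h3, h4⟩ := emb_aux hE k h c d hs F hF
  refine ⟨p, h1, h2, ?_, h4⟩
  intro j hj
  have : j = 0 := Fin.ext (by simpa using hj)
  rw [this]
  exact h3

theorem capq : S_CAPQ := by
  intro V _ G l S L hE m h c d hs q hq1 hq2 hq3 hq4
  obtain ⟨p, ⟨h1, h1'⟩, h2, h3, h4⟩ := emb V G l S L hE m h c d hs q.toFinset (by
    have := List.toFinset_card_le q
    omega)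
  have hlp : LP G (q ++ p) := by
    refine ⟨?_, ?_⟩
    · rw [List.nodup_append]
      refine ⟨hq1.1, h1, ?_⟩
      intro a ha b hb hab
      subst hab
      rcases h4 _ hb with h5 | ⟨_, h5⟩
      · exact hq2 _ ha h5
      · exact h5 (List.mem_toFinset.2 ha)
    · rw [List.isChain_append]
      refine ⟨hq1.2, h1', ?_⟩
      intro x hx y hy
      have hpos := hs.pos
      have h5 := h3 ⟨0, by omega⟩ rfl
      rw [h5] at hy
      simp only [Option.mem_def, Option.some.injEq] at hy
      rw [← hy]
      exact hq3 x hx _ rfl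
  have h6 := hE.nl _ hlp
  rw [List.length_append, h2] at h6
  exact h6

theorem cap1 : S_CAP1 := by
  intro V _ G l S L hE m h c d hs hle
  have hpos := hs.pos
  set j0 : Fin m := ⟨0, by omega⟩ with hj0
  have hS0 := hs.hS j0
  obtain ⟨x, hx, _⟩ := exists_low (F := ∅) (hE.ends _ hS0) (by
    have := hE.hl
    simp
    omega)
  have h1 := capq V G l S L hE m h c d hs [x] ⟨by simp, by simp⟩
    (by
      intro v hv
      simp only [List.mem_cons, List.not_mem_nil, or_false] at hv
      subst hv
      rintro ⟨j, hj⟩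
      exact hE.dis _ (hs.hS j) (hj ▸ hx.1))
    (by
      intro v hv j hj
      simp only [List.getLast?_singleton, Option.some.injEq] at hv
      have : j = j0 := Fin.ext hj
      rw [← hv, this]
      exact hx.2.symm)
    (by simpa using hle)
  simpa using h1

theorem cap2 : S_CAP2 := by
  intro V _ G l S L hE m h c d hs hpe hle
  have hpos := hs.pos
  set j0 : Fin m := ⟨0, by omega⟩ with hj0
  have hS0 := hs.hS j0
  obtain ⟨x, z, ⟨hx, hz, hxz, _⟩, hx0⟩ := hpe j0 rfl
  have h1 := capq V G l S L hE m h c d hs [z, x] ⟨by simpa using hxz.ne.symm, by simpa using hxz.symm⟩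
    (by
      intro v hv
      simp only [List.mem_cons, List.not_mem_nil, or_false] at hv
      rintro ⟨j, hj⟩
      have h2 := hE.dis _ (hs.hS j)
      rw [hj] at h2
      rcases hv with rfl | rfl
      · exact h2 hz
      · exact h2 hx)
    (by
      intro v hv j hj
      simp only [List.getLast?_cons_cons, List.getLast?_singleton, Option.some.injEq] at hv
      have : j = j0 := Fin.ext hj
      rw [← hv, this]
      exact hx0.2.symm)
    (by simpa using hle)
  simpa using h1

end Pool.Agent.Y348.PK.Emb
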