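import Pool.Agent.Y494.PK.Stm

/-!
Project PK: insertion lemma (job 3484).
-/

namespace Pool.Agent.Y348.PK.Ins

open Pool.Agent.Y494.PK Classical

variable {Q : Type}

/-- `a` fits a slot of `B` -/
def Fits (R : SimpleGraph Q) (B : List Q) (a : Q) : Prop :=
  ∃ X Y, B = X ++ Y ∧ X ≠ [] ∧ (∀ p ∈ X.getLast?, R.Adj p a) ∧ (∀ y ∈ Y.head?, R.Adj a y)

theorem exists_last (P : Q → Prop) : ∀ (A : List Q), (∃ a ∈ A, P a) →
    ∃ A1 b A2, A = A1 ++ b :: A2 ∧ P b ∧ ∀ c ∈ A2, ¬ P c := by
  intro A
  induction A with
  | nil => rintro ⟨a, ha, _⟩; simp at ha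
  | cons a A ih =>
    intro h
    by_cases h1 : ∃ a ∈ A, P a
    · obtain ⟨A1, b, A2, rfl, hb, hc⟩ := ih h1
      exact ⟨a :: A1, b, A2, rfl, hb, hc⟩
    · obtain ⟨c, hc, hp⟩ := h
      rcases List.mem_cons.1 hc with rfl | hc
      · exact ⟨[], c, A, rfl, hp, fun x hx hpx => h1 ⟨x, hx, hpx⟩⟩
      · exact absurd ⟨c, hc, hp⟩ h1

theorem insert_all (R : SimpleGraph Q) : ∀ (m : ℕ) (A B : List Q), A.length = m →
    A.IsChain R.Adj → B.IsChain R.Adj → (∀ a ∈ A, Fits R B a) →
    ∃ C : List Q, C.Perm (A ++ B) ∧ C.IsChain R.Adj := by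
  intro m
  induction m using Nat.strong_induction_on with
  | _ m ih =>
    intro A B hm hA hB hf
    rcases A with _ | ⟨a, A'⟩
    · exact ⟨B, by simp, hB⟩
    · obtain ⟨X, Y, rfl, hX, h1, h2⟩ := hf a (by simp)
      obtain ⟨A1, b, A2, hAe, hb, hc⟩ := exists_last
        (fun c => (∀ p ∈ X.getLast?, R.Adj p c) ∧ (∀ y ∈ Y.head?, R.Adj c y)) (a :: A')
        ⟨a, by simp, h1, h2⟩
      have hlen : A2.length < m := by
        rw [← hm, hAe]; simp; omega
      rw [hAe] at hA
      have hA2 : A2.IsChain R.Adj := by
        rw [List.isChain_append] at hA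
        exact hA.2.1.tail
      have hA1 : (A1 ++ [b]).IsChain R.Adj := by
        rw [show A1 ++ b :: A2 = (A1 ++ [b]) ++ A2 by simp] at hA
        rw [List.isChain_append] at hA
        exact hA.1
      have hhead : ∀ x ∈ (A1 ++ [b]).head?, x = a := by
        intro x hx
        rcases A1 with _ | ⟨a1, A1'⟩
        · simp only [List.nil_append, List.cons.injEq] at hAe
          simp only [List.nil_append, List.head?_cons, Option.mem_def, Option.some.injEq] at hx
          rw [← hx, hAe.1]
        · simp only [List.cons_append, List.cons.injEq] at hAe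
          simp only [List.cons_append, List.head?_cons, Option.mem_def, Option.some.injEq] at hx
          rw [← hx, hAe.1]
      obtain ⟨C, hC1, hC2⟩ := ih A2.length hlen A2 (X ++ ((A1 ++ [b]) ++ Y)) rfl hA2
        (by
          rw [List.isChain_append] at hB
          rw [List.isChain_append, List.isChain_append]
          refine ⟨hB.1, ⟨hA1, hB.2.1, ?_⟩, ?_⟩
          · intro x hx y hy
            simp only [List.getLast?_append, List.getLast?_singleton, Option.some_or,
              Option.mem_def, Option.some.injEq] at hx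
            rw [← hx]
            exact hb.2 y hy
          · intro x hx y hy
            have hy' : y ∈ (A1 ++ [b]).head? := by
              rcases A1 with _ | ⟨a1, A1'⟩
              · simpa using hy
              · simpa using hy
            rw [hhead y hy']
            exact h1 x hx)
        (by
          intro c hcA
          have hcf : Fits R (X ++ Y) c := hf c (by rw [hAe]; simp [hcA])
          obtain ⟨X', Y', he, hX', g1, g2⟩ := hcf
          rcases List.append_eq_append_iff.1 he with ⟨Z, hZ1, hZ2⟩ | ⟨Z, hZ1, hZ2⟩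
          · rcases Z with _ | ⟨z, Z'⟩
            · exfalso
              simp only [List.append_nil] at hZ1
              simp only [List.nil_append] at hZ2
              rw [hZ1] at g1
              rw [← hZ2] at g2
              exact hc c hcA ⟨g1, g2⟩
            · refine ⟨X ++ ((A1 ++ [b]) ++ z :: Z'), Y', ?_, by simp [hX], ?_, g2⟩
              · rw [hZ2]; simp
              · intro p hp
                apply g1
                rw [hZ1]
                simpa using hp
          · rcases Z with _ | ⟨z, Z'⟩
            · exfalso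
              simp only [List.append_nil] at hZ1
              simp only [List.nil_append] at hZ2
              rw [← hZ1] at g1
              rw [hZ2] at g2
              exact hc c hcA ⟨g1, g2⟩
            · refine ⟨X', z :: Z' ++ ((A1 ++ [b]) ++ Y), ?_, hX', g1, ?_⟩
              · rw [hZ1]; simp
              · intro y hy
                apply g2
                rw [hZ2]
                simpa using hy)
      refine ⟨C, hC1.trans ?_, hC2⟩
      rw [hAe, List.perm_iff_count]
      intro x
      simp only [List.count_append, List.count_cons, List.count_nil]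
      omega

theorem ham_of_list [Fintype Q] {l : ℕ} {R : SimpleGraph Q} (hc : Fintype.card Q = l)
    (C : List Q) (h1 : C.Nodup) (h2 : C.length = l) (h3 : C.IsChain R.Adj) :
    ∃ e : Fin l ≃ Q, Ham R e := by
  subst h2
  have hinj : Function.Injective C.get := List.nodup_iff_injective_get.1 h1
  have hbij : Function.Bijective C.get := by
    rw [Fintype.bijective_iff_injective_and_card]
    exact ⟨hinj, by rw [hc, Fintype.card_fin]⟩
  refine ⟨Equiv.ofBijective _ hbij, ?_⟩
  intro j k hjk
  rw [List.isChain_iff_getElem] at h3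
  have h4 := h3 j (by rw [← hjk]; exact k.2)
  simp only [Equiv.ofBijective_apply, List.get_eq_getElem]
  simpa only [hjk] using h4

theorem first [Fintype Q] {l : ℕ} {R : SimpleGraph Q} (hc : Fintype.card Q = l) (hN : NT l R)
    (i : ℕ) (e : Fin l ≃ Q) (h : Cov R i e) :
    ∃ s : Fin l, (s : ℕ) ≤ i ∧
    (∀ j k : Fin l, (k : ℕ) = j + 1 → i < (j : ℕ) → ¬ (R.Adj (e s) (e j) ∧ R.Adj (e s) (e k))) ∧
    ∀ j : Fin l, (j : ℕ) + 1 = l → ¬ R.Adj (e s) (e j) := by
  by_contra hcon
  push Not at hcon
  set E : List Q := List.ofFn e with hE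
  have hElen : E.length = l := by rw [hE, List.length_ofFn]
  have hil := h.1
  have hEg : ∀ (j : ℕ) (hj : j < E.length), E[j] = e ⟨j, by omega⟩ := by
    intro j hj
    simp [hE]
  have hA : (E.take (i + 1)).IsChain R.Adj := by
    rw [List.isChain_iff_getElem]
    intro j hj
    rw [List.length_take] at hj
    rw [List.getElem_take, List.getElem_take, hEg, hEg]
    exact h.2 ⟨j, by omega⟩ ⟨j + 1, by omega⟩ rfl (by simp only; omega)
  have hB : (E.drop (i + 1)).IsChain R.Adj := by
    rw [List.isChain_iff_getElem]
    intro j hj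
    rw [List.length_drop] at hj
    rw [List.getElem_drop, List.getElem_drop, hEg, hEg]
    exact h.2 ⟨i + 1 + j, by omega⟩ ⟨i + 1 + (j + 1), by omega⟩ (by simp only; omega)
      (by simp only; omega)
  have hfit : ∀ a ∈ E.take (i + 1), Fits R (E.drop (i + 1)) a := by
    intro a ha
    rw [List.mem_iff_getElem] at ha
    obtain ⟨s, hs, rfl⟩ := ha
    rw [List.length_take] at hs
    rw [List.getElem_take, hEg]
    have key : ∀ t : ℕ, (ht : i < t) → (htl : t < l) → R.Adj (e ⟨s, by omega⟩) (e ⟨t, htl⟩) →
        (∀ ht2 : t + 1 < l, R.Adj (e ⟨s, by omega⟩) (e ⟨t + 1, ht2⟩)) →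
        Fits R (E.drop (i + 1)) (e ⟨s, by omega⟩) := by
      intro t ht htl g1 g2
      refine ⟨(E.drop (i + 1)).take (t - i), (E.drop (i + 1)).drop (t - i),
        (List.take_append_drop _ _).symm, ?_, ?_, ?_⟩
      · intro h0
        have := congrArg List.length h0
        rw [List.length_take, List.length_drop] at this
        simp only [List.length_nil] at this
        omega
      · intro p hp
        rw [Option.mem_def, List.getLast?_eq_getElem?, List.length_take, List.length_drop,
          List.getElem?_take, List.getElem?_drop, if_pos (by omega)] at hp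
        rw [List.getElem?_eq_some_iff] at hp
        obtain ⟨h5, h6⟩ := hp
        rw [hEg] at h6
        rw [← h6]
        have : (⟨i + 1 + (min (t - i) (E.length - (i + 1)) - 1), by omega⟩ : Fin l) = ⟨t, htl⟩ := by
          apply Fin.ext
          simp only
          omega
        rw [this]
        exact g1.symm
      · intro y hy
        rw [Option.mem_def, List.head?_drop, List.getElem?_drop, List.getElem?_eq_some_iff] at hy
        obtain ⟨h5, h6⟩ := hy
        rw [hEg] at h6
        rw [← h6]
        have h7 : t + 1 < l := by omega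
        have : (⟨i + 1 + (t - i), by omega⟩ : Fin l) = ⟨t + 1, h7⟩ := by
          apply Fin.ext
          simp only
          omega
        rw [this]
        exact g2 h7
    by_cases hq : ∀ j k : Fin l, (k : ℕ) = j + 1 → i < (j : ℕ) →
        ¬ (R.Adj (e ⟨s, by omega⟩) (e j) ∧ R.Adj (e ⟨s, by omega⟩) (e k))
    · obtain ⟨j, hj1, hj2⟩ := hcon ⟨s, by omega⟩ (by simp only; omega)
        (fun j k hjk hij hadj => by
          intro hadj2
          exact hq j k hjk hij ⟨hadj, hadj2⟩)
      exact key j (by omega) j.2 hj2 (fun ht2 => absurd ht2 (by omega))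
    · push Not at hq
      obtain ⟨j, k, hjk, hij, g1, g2⟩ := hq
      refine key j hij j.2 g1 (fun ht2 => ?_)
      have : (⟨(j : ℕ) + 1, ht2⟩ : Fin l) = k := Fin.ext hjk.symm
      rw [this]
      exact g2
  obtain ⟨C, hC1, hC2⟩ := insert_all R _ _ _ rfl hA hB hfit
  rw [List.take_append_drop] at hC1
  have hnd : C.Nodup := hC1.nodup_iff.2 (by rw [hE]; exact List.nodup_ofFn.2 e.injective)
  have hlen : C.length = l := by rw [hC1.length_eq, hElen]
  obtain ⟨e', he'⟩ := ham_of_list hc C hnd hlen hC2
  exact hN e' he'

theorem ins : S_INS := by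
  intro Q _ l R hc hN i e h
  refine ⟨first hc hN i e h, ?_⟩
  have hil := h.1
  have h' : Cov R (l - 2 - i) (Fin.revPerm.trans e) := by
    refine ⟨by omega, ?_⟩
    intro j k hjk hj
    simp only [Equiv.trans_apply, Fin.revPerm_apply]
    have hk := k.2
    refine (h.2 (Fin.rev k) (Fin.rev j) ?_ ?_).symm
    · rw [Fin.val_rev, Fin.val_rev]; omega
    · rw [Fin.val_rev]; omega
  obtain ⟨s, hs1, hs2, hs3⟩ := first hc hN _ _ h'
  refine ⟨Fin.rev s, ?_, ?_, ?_⟩
  · rw [Fin.val_rev]; omega
  · intro j k hjk hki
    have h1 := hs2 (Fin.rev k) (Fin.rev j)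
      (by rw [Fin.val_rev, Fin.val_rev]; have := k.2; omega) (by rw [Fin.val_rev]; omega)
    simp only [Equiv.trans_apply, Fin.revPerm_apply, Fin.rev_rev] at h1
    exact fun h2 => h1 ⟨h2.2, h2.1⟩
  · intro j hj
    have h1 := hs3 (Fin.rev j) (by rw [Fin.val_rev]; omega)
    simpa only [Equiv.trans_apply, Fin.revPerm_apply, Fin.rev_rev] using h1

end Pool.Agent.Y348.PK.Ins
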