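import Pool.Agent.Y494.PK.Stm2

/-!
Project PK: transfer to types, first kind (job 3456).
-/

namespace Pool.Agent.Y348.PK.TQa

open Pool.Agent.Y494.PK Classical

/-- two hubs in the type of a clean low are adjacent in the hub graph -/
theorem cl_adj {V : Type} [Fintype V] {G : SimpleGraph V} {l : ℕ} {S L : Set V} {y a b : V}
    (hy : Cl G l S L y) (ha : a ∈ Ty G S y) (hb : b ∈ Ty G S y) (hab : a ≠ b) :
    (HG G l S L).Adj a b := by
  refine ⟨hab, ha.1, hb.1, hy.2.trans (Set.ncard_le_ncard ?_ (Set.toFinite _))⟩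
  rintro z ⟨hz1, hz2⟩
  rw [← hz2] at ha hb
  exact ⟨hz1, ha.2, hb.2⟩

theorem tq1 (hP1V : S_P1V) (hSUB1 : S_SUB1) (hISO : S_ISO) : S_TQ1 := by
  intro V _ G r S L hE x hn1
  have hne : {p : Equiv.Perm (Fin (r + 1)) × (Fin (r + 1) → V) × Fin (r + 1) |
    (x ∘ p.1, p.2) ∈ T1c G r S L}.Nonempty := by
    by_contra hcon
    rw [Set.not_nonempty_iff_eq_empty] at hcon
    apply hn1
    rw [n1, hcon, Set.ncard_empty]
  obtain ⟨⟨t0, h0, i0⟩, hT0⟩ := hne
  simp only [Set.mem_ofPred_eq] at hT0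
  have hLV0 : LV1 G S L (x ∘ t0) h0 (i0 : ℕ) := hT0.1
  have hCl0 : ∀ j, Cl G (r + 1) S L ((x ∘ t0) j) := hT0.2
  have hx : ∀ j, (x ∘ t0) (t0.symm j) = x j := fun j => by simp
  set Q : Set V := Set.range h0 with hQ
  have hQc : Q.ncard = r + 1 := by
    rw [hQ, ← Set.image_univ, Set.InjOn.ncard_image (hLV0.hinj.injOn), Set.ncard_univ,
      Nat.card_eq_fintype_card, Fintype.card_fin]
  have hsub : ∀ j, Ty G S (x j) ⊆ Q := by
    intro j
    have := hSUB1 V G r S L hE _ _ _ hT0 (t0.symm j)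
    rwa [hx] at this
  have hclx : ∀ j, Cl G (r + 1) S L (x j) := by
    intro j
    have := hCl0 (t0.symm j)
    rwa [hx] at this
  refine ⟨Q, hQc, hsub, ?_, ?_, ?_, ?_, ?_, ?_⟩
  · rintro q ⟨s, rfl⟩
    exact ⟨t0 s, hLV0.hS s, hLV0.mat s⟩
  · intro j
    refine ⟨h0 (t0.symm j), hLV0.hS _, ?_⟩
    have := hLV0.mat (t0.symm j)
    rwa [hx] at this
  · intro e he
    apply hP1V V G (r + 1) S L hE (fun j => (e j : V))
      (fun a b hab => e.injective (Subtype.ext hab))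
    intro j k hjk
    exact he j k hjk
  · intro j a ha b hb hab
    exact cl_adj (hclx j) ha hb (fun h => hab (Subtype.ext h))
  · have hsubset : {p : Equiv.Perm (Fin (r + 1)) × (Fin (r + 1) → V) × Fin (r + 1) |
        (x ∘ p.1, p.2) ∈ T1c G r S L} ⊆
        (fun p : (Fin (r + 1) ≃ Q) × Fin (r + 1) × Equiv.Perm (Fin (r + 1)) =>
          (p.2.2, (fun j => (p.1 j : V)), p.2.1)) ''
        {p : (Fin (r + 1) ≃ Q) × Fin (r + 1) × Equiv.Perm (Fin (r + 1)) |
          Lead1 (TQ G S x Q) p.1 (p.2.1 : ℕ) p.2.2} := by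
      rintro ⟨t, h, i⟩ hT
      simp only [Set.mem_ofPred_eq] at hT
      obtain ⟨hLV, hCl⟩ : LV1 G S L (x ∘ t) h (i : ℕ) ∧ ∀ j, Cl G (r + 1) S L ((x ∘ t) j) := hT
      have hr : Set.range h ⊆ Q := by
        rintro _ ⟨s, rfl⟩
        exact hsub (t s) ⟨hLV.hS s, hLV.mat s⟩
      have hr2 : Set.range h = Q := by
        apply Set.eq_of_subset_of_ncard_le hr _ (Set.toFinite _)
        rw [hQc, ← Set.image_univ, Set.InjOn.ncard_image (hLV.hinj.injOn), Set.ncard_univ,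
          Nat.card_eq_fintype_card, Fintype.card_fin]
      have hbij : Function.Bijective (fun j => (⟨h j, hr ⟨j, rfl⟩⟩ : Q)) := by
        constructor
        · intro a b hab
          exact hLV.hinj (congrArg Subtype.val hab)
        · rintro ⟨q, hq⟩
          rw [← hr2] at hq
          obtain ⟨s, rfl⟩ := hq
          exact ⟨s, rfl⟩
      refine ⟨(Equiv.ofBijective _ hbij, i, t), ?_, ?_⟩
      · refine ⟨hLV.bri, ?_, ?_, ?_⟩
        · intro j
          exact ⟨hLV.hS j, hLV.mat j⟩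
        · intro j k hjk hk
          exact ⟨hLV.hS j, hLV.lef j k hjk hk⟩
        · intro j k hjk hk
          exact ⟨hLV.hS k, hLV.rig j k hjk hk⟩
      · rfl
    exact (Set.ncard_le_ncard hsubset (Set.toFinite _)).trans (Set.ncard_image_le (Set.toFinite _))
  · intro hnsg h
    by_contra hcon
    push Not at hcon
    obtain ⟨q, hq⟩ := h
    obtain ⟨s, rfl⟩ := hq
    have := hISO V G r S L hE _ _ _ hT0 s (fun k hk => hcon ⟨h0 k, ⟨k, rfl⟩⟩ hk)
    exact hnsg (t0 s) this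

end Pool.Agent.Y348.PK.TQa
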