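import Pool.Agent.Y494.PK.Stm2
import Pool.Agent.Y348.PK.TQa

/-!
Project PK: transfer to types, one special low (job 3458).
-/

namespace Pool.Agent.Y348.PK.TQs

open Pool.Agent.Y494.PK Classical
open Pool.Agent.Y348.PK.TQa (cl_adj)

theorem rel_ncard_le {α β : Type} (A : Set α) (B : Set β) (hB : B.Finite) (R : α → β → Prop)
    (h1 : ∀ a ∈ A, ∃ b ∈ B, R a b) (h2 : ∀ a ∈ A, ∀ a' ∈ A, ∀ b, R a b → R a' b → a = a') :
    A.ncard ≤ B.ncard := by
  rcases A.eq_empty_or_nonempty with rfl | ⟨a0, ha0⟩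
  · simp
  · obtain ⟨b0, -, -⟩ := h1 a0 ha0
    have h3 : ∀ a, ∃ b, a ∈ A → (b ∈ B ∧ R a b) := by
      intro a
      by_cases ha : a ∈ A
      · obtain ⟨b, hb⟩ := h1 a ha
        exact ⟨b, fun _ => hb⟩
      · exact ⟨b0, fun h => absurd h ha⟩
    choose f hf using h3
    apply Set.ncard_le_ncard_of_injOn f _ _ hB
    · intro a ha
      exact (hf a ha).1
    · intro a ha a' ha' haa'
      exact h2 a ha a' ha' (f a) (hf a ha).2 (haa' ▸ (hf a' ha').2)

variable {V : Type} [Fintype V] {G : SimpleGraph V} {l : ℕ} {S L : Set V}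

theorem chain_cap (hCAP1 : S_CAP1) (hE : Env G l S L) (v : V) (hv : v ∈ S) (k d : ℕ)
    (g : Fin (k + 1) → V)
    (hg : Function.Injective g) (hgS : ∀ s, g s ∈ S) (hgv : ∀ s, g s ≠ v)
    (hch : ∀ a b : Fin (k + 1), (b : ℕ) = a + 1 → (HG G l S L).Adj (g a) (g b))
    (h0 : G.Adj v (g 0)) (hd : d = 1 ∨ (d = 2 ∧ PE G l S L (g (Fin.last k))))
    (hle : 1 + (2 * (k + 1) + d) ≤ 8 * l) : 1 + (2 * (k + 1) + d) ≤ 2 * l := by
  have hsk : Skel G l S L (Fin.cons v g : Fin (k + 1 + 1) → V) (fun j => if j = 0 then 0 else 1)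
      d := by
    refine ⟨by omega, ?_, ?_, ?_, ?_⟩
    · rw [Fin.cons_injective_iff]
      refine ⟨?_, hg⟩
      rintro ⟨s, hs⟩
      exact hgv s hs
    · intro j
      refine Fin.cases ?_ ?_ j
      · simpa using hv
      · intro s
        simpa using hgS s
    · intro a b hab
      obtain ⟨b', rfl⟩ := Fin.exists_succ_eq_of_ne_zero (x := b) (by
        intro hb
        rw [hb] at hab
        simp at hab)
      rcases Fin.eq_zero_or_eq_succ a with rfl | ⟨a', rfl⟩
      · left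
        have : b' = 0 := by
          apply Fin.ext
          simpa using hab
        subst this
        refine ⟨by simp, ?_⟩
        simpa using h0
      · right; left
        refine ⟨by simp, ?_⟩
        simp only [Fin.cons_succ]
        apply hch
        simpa using hab
    · rcases hd with hd | ⟨hd, hpe⟩
      · exact Or.inl hd
      · refine Or.inr ⟨hd, ?_⟩
        intro j hj
        have : j = Fin.succ (Fin.last k) := by
          apply Fin.ext
          simp only [Fin.val_succ, Fin.val_last]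
          omega
        rw [this, Fin.cons_succ]
        exact hpe
  have hN : SkN (k + 1 + 1) (fun j => if j = 0 then 0 else 1) d = 2 * (k + 1) + d := by
    unfold SkN
    have : ∑ j ∈ Finset.range (k + 1 + 1 - 1), (if j = 0 then 0 else 1) = k := by
      rw [show k + 1 + 1 - 1 = k + 1 by omega, Finset.sum_range_succ']
      simp
    rw [this]
    omega
  have := hCAP1 V G l S L hE _ _ _ _ hsk (by rw [hN]; exact hle)
  rwa [hN] at this

/-- one side of the count -/
theorem part_le {r : ℕ} {x : Fin (r + 1) → V} {j : Fin (r + 1)} {v : V} {Q : Set V}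
    (hQc : Q.ncard = r)
    (P : Fin r → Fin (r + 1)) (p : Fin (r + 1)) (hP : Function.Injective P)
    (hPp : ∀ s, P s ≠ p) (hPc : ∀ q, q ≠ p → ∃ s, q = P s)
    (A : Set (Equiv.Perm (Fin (r + 1)) × (Fin (r + 1) → V) × Fin (r + 1))) (i1 : Fin (r + 1))
    (hA0 : ∀ T ∈ A, Function.Injective T.2.1 ∧ (∀ s, T.2.1 s ∈ S) ∧ T.1 p = j ∧ T.2.1 p = v
      ∧ T.2.2 = i1)
    (hAQ : ∀ T ∈ A, ∀ s, T.2.1 (P s) ∈ Q)
    (ha : ∀ T ∈ A, ∀ s : Fin r, (s : ℕ) = 0 → G.Adj v (T.2.1 (P s)))
    (hb : ∀ T ∈ A, ∀ s : Fin r, G.Adj (T.2.1 (P s)) (x (T.1 (P s))))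
    (hc : ∀ T ∈ A, ∀ s s' : Fin r, (s' : ℕ) = s + 1 → G.Adj (T.2.1 (P s')) (x (T.1 (P s)))) :
    A.ncard ≤ MS (TQ G S (fun k => x (j.succAbove k)) Q) {q | G.Adj v (q : V)} := by
  apply rel_ncard_le A _ (Set.toFinite _)
    (fun T E => (∀ s, (E.1 s : V) = T.2.1 (P s)) ∧ (∀ s, T.1 (P s) = j.succAbove (E.2 s)))
  · rintro ⟨t, h, i⟩ hT
    obtain ⟨hinj, hhS, htp, hhp, hi⟩ := hA0 _ hT
    have hTQ := hAQ _ hT
    have hTa := ha _ hT
    have hTb := hb _ hT
    have hTc := hc _ hT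
    simp only at hinj hhS htp hhp hi hTQ hTa hTb hTc
    have hr2 : Set.range (h ∘ P) = Q := by
      apply Set.eq_of_subset_of_ncard_le _ _ (Set.toFinite _)
      · rintro _ ⟨s, rfl⟩
        exact hTQ s
      · rw [hQc, ← Set.image_univ, Set.InjOn.ncard_image ((hinj.comp hP).injOn), Set.ncard_univ,
          Nat.card_eq_fintype_card, Fintype.card_fin]
    have hbij : Function.Bijective (fun s => (⟨h (P s), hTQ s⟩ : Q)) := by
      constructor
      · intro a b hab
        exact hP (hinj (congrArg Subtype.val hab))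
      · rintro ⟨q, hq⟩
        rw [← hr2] at hq
        obtain ⟨s, rfl⟩ := hq
        exact ⟨s, rfl⟩
    have hex : ∀ s, ∃ z, j.succAbove z = t (P s) := by
      intro s
      apply Fin.exists_succAbove_eq
      intro hh
      exact hPp s (t.injective (hh.trans htp.symm))
    choose t' ht' using hex
    have ht'inj : Function.Injective t' := by
      intro a b hab
      have : t (P a) = t (P b) := by rw [← ht' a, ← ht' b, hab]
      exact hP (t.injective this)
    have ht'bij : Function.Bijective t' := Finite.injective_iff_bijective.1 ht'inj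
    refine ⟨(Equiv.ofBijective _ hbij, Equiv.ofBijective _ ht'bij), ⟨?_, ?_, ?_⟩, ?_, ?_⟩
    · intro s hs
      exact hTa s hs
    · intro s
      refine ⟨hhS _, ?_⟩
      simp only [Equiv.ofBijective_apply, ht']
      exact hTb s
    · intro s s' hss'
      refine ⟨hhS _, ?_⟩
      simp only [Equiv.ofBijective_apply, ht']
      exact hTc s s' hss'
    · intro s
      rfl
    · intro s
      simp only [Equiv.ofBijective_apply, ht']
  · rintro ⟨t, h, i⟩ hT ⟨t2, h2, i2⟩ hT2 ⟨e, t'⟩ ⟨g1, g2⟩ ⟨g3, g4⟩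
    obtain ⟨-, -, htp, hhp, hi⟩ := hA0 _ hT
    obtain ⟨-, -, htp2, hhp2, hi2⟩ := hA0 _ hT2
    simp only at htp hhp hi htp2 hhp2 hi2 g1 g2 g3 g4
    have e1 : t = t2 := by
      apply Equiv.ext
      intro q
      by_cases hq : q = p
      · rw [hq, htp, htp2]
      · obtain ⟨s, rfl⟩ := hPc q hq
        rw [g2, g4]
    have e2 : h = h2 := by
      funext q
      by_cases hq : q = p
      · rw [hq, hhp, hhp2]
      · obtain ⟨s, rfl⟩ := hPc q hq
        rw [← g1, ← g3]
    rw [e1, e2, hi, hi2]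

theorem tqs (hCAP1 : S_CAP1) (hSUB1 : S_SUB1) (hSG1 : S_SG1) (hSGE : S_SGE) : S_TQS := by
  intro V _ G r S L hE x j hSg hbr
  have hl4 := hE.hl
  obtain ⟨hClj, ⟨v, hTv, hiso⟩, hncl⟩ := id hSg
  -- no configurations of the second kind
  have hnE : nE G r S L x = 0 := by
    rw [nE, Set.ncard_eq_zero (Set.toFinite _), Set.eq_empty_iff_forall_notMem]
    rintro ⟨t, h⟩ hT
    have hT' : (x ∘ t, h) ∈ Ec G r S L := hT
    have := (hSGE V G r S L hE).1 _ _ hT' (t.symm j)
    apply this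
    simpa using hSg
  have hnM : nM G r S L x = 0 := by
    rw [nM, Set.ncard_eq_zero (Set.toFinite _), Set.eq_empty_iff_forall_notMem]
    rintro ⟨t, h, a⟩ hT
    have hT' : (x ∘ t, h, a) ∈ Mc G r S L := hT
    have := (hSGE V G r S L hE).2 _ _ _ hT' (t.symm j)
    apply this
    simpa using hSg
  set X : Set (Equiv.Perm (Fin (r + 1)) × (Fin (r + 1) → V) × Fin (r + 1)) :=
    {p | (x ∘ p.1, p.2) ∈ T1c G r S L} with hX
  have hn1 : n1 G r S L x = X.ncard := rfl
  have hXne : X.Nonempty := by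
    by_contra hcon
    rw [Set.not_nonempty_iff_eq_empty] at hcon
    apply hbr
    rw [br, hn1, hnE, hnM, hcon, Set.ncard_empty]
    simp
  -- general facts on a configuration
  have gen : ∀ T ∈ X, LV1 G S L (x ∘ T.1) T.2.1 (T.2.2 : ℕ) ∧
      (∀ s, Cl G (r + 1) S L ((x ∘ T.1) s)) ∧ T.2.1 (T.1.symm j) = v ∧
      (((T.1.symm j : Fin (r + 1)) : ℕ) = 0 ∧ (T.2.2 : ℕ) = 0 ∨
        ((T.1.symm j : Fin (r + 1)) : ℕ) = r ∧ (T.2.2 : ℕ) + 1 = r) := by
    intro T hT
    have hT' : (x ∘ T.1, T.2.1, T.2.2) ∈ T1c G r S L := hT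
    obtain ⟨g1, g2⟩ := hSG1 V G r S L hE _ _ _ hT' (T.1.symm j) (by simpa using hSg)
    refine ⟨hT'.1, hT'.2, ?_, g2⟩
    have : Ty G S ((x ∘ T.1) (T.1.symm j)) = {v} := by simpa using hTv
    rw [this] at g1
    exact (Set.singleton_injective g1).symm
  obtain ⟨T0, hT0⟩ := hXne
  obtain ⟨hLV0, hCl0, hv0, hpos0⟩ := gen T0 hT0
  set p0 := T0.1.symm j with hp0
  set h0 := T0.2.1 with hh0
  set Q : Set V := h0 '' {s | s ≠ p0} with hQ
  have hvS : v ∈ S := by rw [← hv0]; exact hLV0.hS _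
  have hQc : Q.ncard = r := by
    rw [hQ, Set.InjOn.ncard_image (hLV0.hinj.injOn)]
    have h1 : {s : Fin (r + 1) | s ≠ p0} = (((Finset.univ.erase p0 : Finset (Fin (r + 1)))) :
        Set (Fin (r + 1))) := by
      ext s; simp
    rw [h1, Set.ncard_coe_finset, Finset.card_erase_of_mem (Finset.mem_univ _), Finset.card_univ,
      Fintype.card_fin]
    omega
  have hvQ : v ∉ Q := by
    rintro ⟨s, hs, hsv⟩
    exact hs (hLV0.hinj (hsv.trans hv0.symm))
  have hQS : Q ⊆ S := by
    rintro _ ⟨s, _, rfl⟩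
    exact hLV0.hS s
  have hcl : ∀ k, Cl G (r + 1) S L (x k) := by
    intro k
    simpa using hCl0 (T0.1.symm k)
  have hmat0 : ∀ k, h0 (T0.1.symm k) ∈ Ty G S (x k) := by
    intro k
    refine ⟨hLV0.hS _, ?_⟩
    simpa using hLV0.mat (T0.1.symm k)
  have hkj : ∀ k, k ≠ j → Cl G (r + 1) S L (x k) ∧ Ty G S (x k) ⊆ Q ∧ (Ty G S (x k)).Nonempty := by
    intro k hk
    refine ⟨hcl k, ?_, ⟨_, hmat0 k⟩⟩
    have hsub : Ty G S (x k) ⊆ Set.range h0 := by
      have hT' : (x ∘ T0.1, T0.2.1, T0.2.2) ∈ T1c G r S L := hT0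
      have := hSUB1 V G r S L hE _ _ _ hT' (T0.1.symm k)
      simpa using this
    have hne : h0 (T0.1.symm k) ≠ v := by
      intro hh
      have := hLV0.hinj (hh.trans hv0.symm)
      exact hk (T0.1.symm.injective this)
    have hvT : v ∉ Ty G S (x k) := by
      intro hvT
      exact hiso _ (cl_adj (hcl k) hvT (hmat0 k) hne.symm)
    intro a ha
    obtain ⟨s, rfl⟩ := hsub ha
    refine ⟨s, ?_, rfl⟩
    rintro rfl
    apply hvT
    rw [← hv0]
    exact ha
  have hQk : ∀ q ∈ Q, ∃ k, k ≠ j ∧ q ∈ Ty G S (x k) := by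
    rintro _ ⟨s, hs, rfl⟩
    refine ⟨T0.1 s, ?_, ?_⟩
    · intro hh
      apply hs
      rw [hp0, ← hh]
      simp
    · refine ⟨hLV0.hS _, ?_⟩
      exact hLV0.mat s
  -- the two kinds of configurations
  set A : Set (Equiv.Perm (Fin (r + 1)) × (Fin (r + 1) → V) × Fin (r + 1)) :=
    {T | T ∈ X ∧ T.1 0 = j ∧ (T.2.2 : ℕ) = 0} with hA
  set B : Set (Equiv.Perm (Fin (r + 1)) × (Fin (r + 1) → V) × Fin (r + 1)) :=
    {T | T ∈ X ∧ T.1 (Fin.last r) = j ∧ (T.2.2 : ℕ) + 1 = r} with hB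
  have hXAB : X ⊆ A ∪ B := by
    intro T hT
    obtain ⟨g1, g2, g3, g4⟩ := gen T hT
    rcases g4 with ⟨g5, g6⟩ | ⟨g5, g6⟩
    · left
      refine ⟨hT, ?_, g6⟩
      have : T.1.symm j = 0 := Fin.ext (by simpa using g5)
      rw [← this]; simp
    · right
      refine ⟨hT, ?_, g6⟩
      have : T.1.symm j = Fin.last r := Fin.ext (by simpa using g5)
      rw [← this]; simp
  have hQmem : ∀ T ∈ X, ∀ q, T.1 q ≠ j → T.2.1 q ∈ Q := by
    intro T hT q hq
    obtain ⟨g1, g2, g3, g4⟩ := gen T hT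
    exact (hkj _ hq).2.1 ⟨g1.hS q, g1.mat q⟩
  set PA : Fin r → Fin (r + 1) := fun s => s.succ with hPA
  set PB : Fin r → Fin (r + 1) := fun s => (Fin.rev s).castSucc with hPB
  -- sides
  have sideA : ∀ T ∈ X, T.1 0 = j → (T.2.2 : ℕ) = 0 →
      (∀ s : Fin r, (s : ℕ) = 0 → G.Adj v (T.2.1 (PA s))) ∧
      (∀ s : Fin r, G.Adj (T.2.1 (PA s)) (x (T.1 (PA s)))) ∧
      (∀ s s' : Fin r, (s' : ℕ) = s + 1 → G.Adj (T.2.1 (PA s')) (x (T.1 (PA s)))) := by
    intro T hT h1 h2
    obtain ⟨g1, g2, g3, g4⟩ := gen T hT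
    have hj0 : T.1.symm j = 0 := by rw [← h1]; simp
    rw [hj0] at g3
    refine ⟨?_, ?_, ?_⟩
    · intro s hs
      rw [← g3]
      exact g1.mid _ _ (by simp [hPA, hs]) (by simp [h2])
    · intro s
      exact g1.mat _
    · intro s s' hss'
      exact g1.rig (PA s) (PA s') (by simp [hPA, hss']) (by simp [hPA, h2])
  have sideB : ∀ T ∈ X, T.1 (Fin.last r) = j → (T.2.2 : ℕ) + 1 = r →
      (∀ s : Fin r, (s : ℕ) = 0 → G.Adj v (T.2.1 (PB s))) ∧
      (∀ s : Fin r, G.Adj (T.2.1 (PB s)) (x (T.1 (PB s)))) ∧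
      (∀ s s' : Fin r, (s' : ℕ) = s + 1 → G.Adj (T.2.1 (PB s')) (x (T.1 (PB s)))) := by
    intro T hT h1 h2
    obtain ⟨g1, g2, g3, g4⟩ := gen T hT
    have hj0 : T.1.symm j = Fin.last r := by rw [← h1]; simp
    rw [hj0] at g3
    refine ⟨?_, ?_, ?_⟩
    · intro s hs
      rw [← g3]
      refine (g1.mid (PB s) (Fin.last r) ?_ ?_).symm
      · simp only [hPB, Fin.val_castSucc, Fin.val_rev, Fin.val_last]
        omega
      · simp only [hPB, Fin.val_castSucc, Fin.val_rev]
        omega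
    · intro s
      exact g1.mat _
    · intro s s' hss'
      have h3 := s'.2
      refine g1.lef (PB s') (PB s) ?_ ?_
      · simp only [hPB, Fin.val_castSucc, Fin.val_rev]
        omega
      · simp only [hPB, Fin.val_castSucc, Fin.val_rev]
        omega
  have hPAi : Function.Injective PA := Fin.succ_injective _
  have hPBi : Function.Injective PB := by
    intro a b hab
    exact Fin.rev_injective (Fin.castSucc_injective _ hab)
  have hPA0 : ∀ s, PA s ≠ 0 := fun s => Fin.succ_ne_zero s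
  have hPB0 : ∀ s, PB s ≠ Fin.last r := fun s => Fin.castSucc_ne_last _
  have hPAc : ∀ q, q ≠ 0 → ∃ s, q = PA s := by
    intro q hq
    obtain ⟨s, hs⟩ := Fin.exists_succ_eq_of_ne_zero hq
    exact ⟨s, hs.symm⟩
  have hPBc : ∀ q, q ≠ Fin.last r → ∃ s, q = PB s := by
    intro q hq
    obtain ⟨s, hs⟩ := Fin.exists_castSucc_eq.2 hq
    exact ⟨Fin.rev s, by simp [hPB, hs]⟩
  have hAle : A.ncard ≤ MS (TQ G S (fun k => x (j.succAbove k)) Q) {q | G.Adj v (q : V)} := by
    refine part_le (i1 := 0) (v := v) hQc PA 0 hPAi hPA0 hPAc A ?_ ?_ ?_ ?_ ?_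
    · rintro T ⟨h1, h2, h3⟩
      obtain ⟨g1, g2, g3, g4⟩ := gen T h1
      refine ⟨g1.hinj, g1.hS, h2, ?_, Fin.ext (by simpa using h3)⟩
      have hj0 : T.1.symm j = 0 := by rw [← h2]; simp
      rwa [hj0] at g3
    · rintro T ⟨h1, h2, h3⟩ s
      apply hQmem T h1
      rw [← h2]
      intro hh
      exact hPA0 s (T.1.injective hh)
    · rintro T ⟨h1, h2, h3⟩
      exact (sideA T h1 h2 h3).1
    · rintro T ⟨h1, h2, h3⟩
      exact (sideA T h1 h2 h3).2.1
    · rintro T ⟨h1, h2, h3⟩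
      exact (sideA T h1 h2 h3).2.2
  have hBle : B.ncard ≤ MS (TQ G S (fun k => x (j.succAbove k)) Q) {q | G.Adj v (q : V)} := by
    refine part_le (i1 := ⟨r - 1, by omega⟩) (v := v) hQc PB (Fin.last r) hPBi hPB0 hPBc B
      ?_ ?_ ?_ ?_ ?_
    · rintro T ⟨h1, h2, h3⟩
      obtain ⟨g1, g2, g3, g4⟩ := gen T h1
      refine ⟨g1.hinj, g1.hS, h2, ?_, Fin.ext (by simp only; omega)⟩
      have hj0 : T.1.symm j = Fin.last r := by rw [← h2]; simp
      rwa [hj0] at g3
    · rintro T ⟨h1, h2, h3⟩ s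
      apply hQmem T h1
      rw [← h2]
      intro hh
      exact hPB0 s (T.1.injective hh)
    · rintro T ⟨h1, h2, h3⟩
      exact (sideB T h1 h2 h3).1
    · rintro T ⟨h1, h2, h3⟩
      exact (sideB T h1 h2 h3).2.1
    · rintro T ⟨h1, h2, h3⟩
      exact (sideB T h1 h2 h3).2.2
  have hbound : n1 G r S L x ≤
      2 * MS (TQ G S (fun k => x (j.succAbove k)) Q) {q | G.Adj v (q : V)} := by
    rw [hn1]
    have := (Set.ncard_le_ncard hXAB (Set.toFinite _)).trans (Set.ncard_union_le _ _)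
    omega
  -- connectivity
  have conn : ∀ P : Fin r → Fin (r + 1), (∀ s, P s ≠ p0) → (∀ q, q ≠ p0 → ∃ s, q = P s) →
      Function.Injective P →
      (∀ s : Fin r, G.Adj (h0 (P s)) (x (T0.1 (P s)))) →
      (∀ s s' : Fin r, (s' : ℕ) = s + 1 → G.Adj (h0 (P s')) (x (T0.1 (P s)))) →
      ∀ a ∈ Q, ∀ b ∈ Q, (HG G (r + 1) S L).Reachable a b := by
    intro P hP1 hP2 hPi hb hc
    have h1 : ∀ m : ℕ, ∀ hm : m < r, (HG G (r + 1) S L).Reachable (h0 (P ⟨0, by omega⟩))
        (h0 (P ⟨m, hm⟩)) := by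
      intro m
      induction m with
      | zero => intro hm; exact SimpleGraph.Reachable.refl _
      | succ m ih =>
        intro hm
        refine (ih (by omega)).trans (SimpleGraph.Adj.reachable ?_)
        refine cl_adj (hcl (T0.1 (P ⟨m, by omega⟩))) ⟨hLV0.hS _, hb _⟩ ⟨hLV0.hS _, hc _ _ rfl⟩ ?_
        intro hh
        have := congrArg Fin.val (hPi (hLV0.hinj hh))
        simp at this
    rintro _ ⟨a, ha, rfl⟩ _ ⟨b, hb', rfl⟩
    obtain ⟨sa, rfl⟩ := hP2 a ha
    obtain ⟨sb, rfl⟩ := hP2 b hb'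
    exact (h1 sa sa.2).symm.trans (h1 sb sb.2)
  have hreach : ∀ a ∈ Q, ∀ b ∈ Q, (HG G (r + 1) S L).Reachable a b := by
    rcases hpos0 with ⟨g5, g6⟩ | ⟨g5, g6⟩
    · have hp : p0 = 0 := Fin.ext (by simpa using g5)
      have h1 : T0.1 0 = j := by rw [← hp, hp0]; simp
      obtain ⟨-, s2, s3⟩ := sideA T0 hT0 h1 g6
      exact conn PA (by rw [hp]; exact hPA0) (by rw [hp]; exact hPAc) hPAi s2 s3
    · have hp : p0 = Fin.last r := Fin.ext (by simpa using g5)
      have h1 : T0.1 (Fin.last r) = j := by rw [← hp, hp0]; simp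
      obtain ⟨-, s2, s3⟩ := sideB T0 hT0 h1 g6
      exact conn PB (by rw [hp]; exact hPB0) (by rw [hp]; exact hPBc) hPBi s2 s3
  refine ⟨v, Q, hvS, hiso, hvQ, hQS, hQc, hkj, hQk, hreach, ?_, ?_, ?_⟩
  · intro k a ha b hb hab
    exact cl_adj (hcl _) ha hb (fun h => hab (Subtype.ext h))
  · rw [br, hnE, hnM]
    have : (n1 G r S L x : ℝ) ≤
      2 * (MS (TQ G S (fun k => x (j.succAbove k)) Q) {q | G.Adj v (q : V)} : ℝ) := by
      exact_mod_cast hbound
    push_cast
    linarith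
  · intro e he h0e s hs
    obtain ⟨k, rfl⟩ : ∃ k, r = k + 1 := ⟨r - 1, by omega⟩
    have hslast : s = Fin.last k := Fin.ext (by simp only [Fin.val_last]; omega)
    subst hslast
    have hinj : Function.Injective (fun s => (e s : V)) := fun a b hab =>
      e.injective (Subtype.ext hab)
    have hev : ∀ s, (e s : V) ≠ v := fun s hh => hvQ (hh ▸ (e s).2)
    refine ⟨?_, ?_⟩
    · intro hpe
      have := chain_cap hCAP1 hE v hvS k 2 (fun s => (e s : V)) hinj (fun s => hQS (e s).2) hev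
        (fun a b hab => he a b hab) (h0e 0 rfl) (Or.inr ⟨rfl, hpe⟩) (by omega)
      omega
    · intro w hwQ hadj
      have hwv : w ≠ v := by
        rintro rfl
        exact hiso _ hadj.symm
      have hwS : w ∈ S := hadj.2.2.1
      have := chain_cap hCAP1 hE v hvS (k + 1) 1
        (Fin.snoc (fun s => (e s : V)) w : Fin (k + 1 + 1) → V)
        (by
          rw [Fin.snoc_injective_iff]
          refine ⟨hinj, ?_⟩
          rintro ⟨s, hs⟩
          exact hwQ (hs ▸ (e s).2))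
        (by
          intro s
          refine Fin.lastCases ?_ ?_ s
          · simpa using hwS
          · intro s'
            simpa using hQS (e s').2)
        (by
          intro s
          refine Fin.lastCases ?_ ?_ s
          · simpa using hwv
          · intro s'
            simpa using hev s')
        (by
          intro a b hab
          have ha : a ≠ Fin.last (k + 1) := by
            rintro rfl
            have := b.2
            simp only [Fin.val_last] at hab
            omega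
          obtain ⟨a', rfl⟩ := Fin.exists_castSucc_eq.2 ha
          by_cases hb : b = Fin.last (k + 1)
          · subst hb
            have : a' = Fin.last k := by
              apply Fin.ext
              simp only [Fin.val_last, Fin.val_castSucc] at hab ⊢
              omega
            subst this
            simpa using hadj
          · obtain ⟨b', rfl⟩ := Fin.exists_castSucc_eq.2 hb
            simp only [Fin.snoc_castSucc]
            exact he a' b' (by simpa using hab))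
        (by
          have : (0 : Fin (k + 1 + 1)) = Fin.castSucc 0 := rfl
          rw [this, Fin.snoc_castSucc]
          exact h0e 0 rfl)
        (Or.inl rfl) (by omega)
      omega

end Pool.Agent.Y348.PK.TQs
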